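import Pool.Agent.H46.Cj.Defs

/-!
Casimir identity and upper frame bound for simultaneous conjugation.
-/

set_option autoImplicit false
set_option linter.unusedSectionVars false
set_option linter.unusedSimpArgs false

open Matrix

namespace Pool.Agent.H46.Cj

open Pool.H97.KLS (OG rot rotM Em Pm ev ev_dot_ev)

variable {r n : ℕ}

/-- Kronecker delta -/
def dl (a b : Fin n) : ℝ := if a = b then 1 else 0

theorem sum_dl (a : Fin n) (f : Fin n → ℝ) : ∑ x, f x * dl x a = f a := by
  simp [dl]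

theorem sum_dl' (a : Fin n) (f : Fin n → ℝ) : ∑ x, dl x a * f x = f a := by
  simp [dl]

theorem dl_sq (a b : Fin n) : dl a b * dl a b = dl a b := by
  unfold dl; split_ifs <;> simp

theorem Em_entry (b j x y : Fin n) : Em j (ev b) x y = dl x b * dl y j - dl x j * dl y b := by
  simp [Em, ev, vecMulVec_apply, dl, Pi.single_apply]

theorem mul_Em (A : Matrix (Fin n) (Fin n) ℝ) (b j x y : Fin n) :
    (A * Em j (ev b)) x y = A x b * dl y j - A x j * dl y b := by
  rw [Matrix.mul_apply]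
  have : ∀ z, A x z * Em j (ev b) z y = (A x z * dl z b) * dl y j - (A x z * dl z j) * dl y b := by
    intro z; rw [Em_entry]; ring
  simp only [this]
  rw [Finset.sum_sub_distrib, ← Finset.sum_mul, ← Finset.sum_mul, sum_dl, sum_dl]

theorem Em_mul (A : Matrix (Fin n) (Fin n) ℝ) (b j x y : Fin n) :
    (Em j (ev b) * A) x y = dl x b * A j y - dl x j * A b y := by
  rw [Matrix.mul_apply]
  have : ∀ z, Em j (ev b) x z * A z y = dl x b * (dl z j * A z y) - dl x j * (dl z b * A z y) := by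
    intro z; rw [Em_entry]; ring
  simp only [this]
  rw [Finset.sum_sub_distrib, ← Finset.mul_sum, ← Finset.mul_sum, sum_dl', sum_dl']

theorem ip_AE (A : Matrix (Fin n) (Fin n) ℝ) (b j : Fin n) :
    ip (A * Em j (ev b)) (A * Em j (ev b))
      = (∑ x, A x b ^ 2) + (∑ x, A x j ^ 2) - 2 * ((∑ x, A x b * A x j) * dl b j) := by
  unfold ip
  have h1 : ∀ x, ∑ y, (A * Em j (ev b)) x y * (A * Em j (ev b)) x y
      = A x b ^ 2 + A x j ^ 2 - 2 * (A x b * A x j * dl b j) := by
    intro x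
    have h2 : ∀ y, (A * Em j (ev b)) x y * (A * Em j (ev b)) x y
        = A x b ^ 2 * dl y j + A x j ^ 2 * dl y b - 2 * (A x b * A x j * (dl y j)) * dl y b := by
      intro y
      rw [mul_Em]
      have e1 := dl_sq y j
      have e2 := dl_sq y b
      linear_combination (A x b ^ 2) * e1 + (A x j ^ 2) * e2
    simp only [h2]
    rw [Finset.sum_sub_distrib, Finset.sum_add_distrib, sum_dl j (fun _ => A x b ^ 2),
      sum_dl b (fun _ => A x j ^ 2), sum_dl b (fun y => 2 * (A x b * A x j * dl y j))]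
  simp only [h1]
  rw [Finset.sum_sub_distrib, Finset.sum_add_distrib, ← Finset.mul_sum, ← Finset.sum_mul]

theorem ip_EA (A : Matrix (Fin n) (Fin n) ℝ) (b j : Fin n) :
    ip (Em j (ev b) * A) (Em j (ev b) * A)
      = (∑ y, A b y ^ 2) + (∑ y, A j y ^ 2) - 2 * ((∑ y, A b y * A j y) * dl b j) := by
  unfold ip
  rw [Finset.sum_comm]
  have h1 : ∀ y, ∑ x, (Em j (ev b) * A) x y * (Em j (ev b) * A) x y
      = A b y ^ 2 + A j y ^ 2 - 2 * (A b y * A j y * dl b j) := by
    intro y
    have h2 : ∀ x, (Em j (ev b) * A) x y * (Em j (ev b) * A) x y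
        = A j y ^ 2 * dl x b + A b y ^ 2 * dl x j - 2 * (A b y * A j y * (dl x j)) * dl x b := by
      intro x
      rw [Em_mul]
      have e1 := dl_sq x j
      have e2 := dl_sq x b
      linear_combination (A b y ^ 2) * e1 + (A j y ^ 2) * e2
    simp only [h2]
    rw [Finset.sum_sub_distrib, Finset.sum_add_distrib, sum_dl b (fun _ => A j y ^ 2),
      sum_dl j (fun _ => A b y ^ 2), sum_dl b (fun x => 2 * (A b y * A j y * dl x j))]
    ring
  simp only [h1]
  rw [Finset.sum_sub_distrib, Finset.sum_add_distrib, ← Finset.mul_sum, ← Finset.sum_mul]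

theorem ip_AE_EA (A : Matrix (Fin n) (Fin n) ℝ) (b j : Fin n) :
    ip (A * Em j (ev b)) (Em j (ev b) * A) = 2 * (A b b * A j j) - 2 * (A b j * A j b) := by
  unfold ip
  have h1 : ∀ x, ∑ y, (A * Em j (ev b)) x y * (Em j (ev b) * A) x y
      = (A x b * A j j - A x j * A j b) * dl x b - (A x b * A b j - A x j * A b b) * dl x j := by
    intro x
    have h2 : ∀ y, (A * Em j (ev b)) x y * (Em j (ev b) * A) x y
        = (A x b * (dl x b * A j y - dl x j * A b y)) * dl y j
          - (A x j * (dl x b * A j y - dl x j * A b y)) * dl y b := by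
      intro y
      rw [mul_Em, Em_mul]; ring
    simp only [h2]
    rw [Finset.sum_sub_distrib, sum_dl j (fun y => A x b * (dl x b * A j y - dl x j * A b y)),
      sum_dl b (fun y => A x j * (dl x b * A j y - dl x j * A b y))]
    ring
  simp only [h1]
  rw [Finset.sum_sub_distrib, sum_dl b (fun x => A x b * A j j - A x j * A j b),
    sum_dl j (fun x => A x b * A b j - A x j * A b b)]
  ring

/-- the Casimir identity for one matrix -/
theorem casimir_one (A : Matrix (Fin n) (Fin n) ℝ) :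
    ∑ b, ∑ j, ip (A * Em j (ev b) - Em j (ev b) * A) (A * Em j (ev b) - Em j (ev b) * A)
      = 4 * ((n : ℝ) - 1) * ip A A + 4 * ip A Aᵀ - 4 * A.trace ^ 2 := by
  have h1 : ∀ b j : Fin n,
      ip (A * Em j (ev b) - Em j (ev b) * A) (A * Em j (ev b) - Em j (ev b) * A)
      = ((∑ x, A x b ^ 2) + (∑ x, A x j ^ 2) - 2 * ((∑ x, A x b * A x j) * dl b j))
        + ((∑ y, A b y ^ 2) + (∑ y, A j y ^ 2) - 2 * ((∑ y, A b y * A j y) * dl b j))
        - 2 * (2 * (A b b * A j j) - 2 * (A b j * A j b)) := by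
    intro b j
    rw [ip_sub_left, ip_sub_right, ip_sub_right, ip_comm (Em j (ev b) * A) (A * Em j (ev b)),
      ip_AE, ip_EA, ip_AE_EA]
    ring
  simp only [h1]
  have hcol : ∑ b : Fin n, ∑ x : Fin n, A x b ^ 2 = ip A A := by
    rw [Finset.sum_comm]
    unfold ip
    exact Finset.sum_congr rfl fun _ _ => Finset.sum_congr rfl fun _ _ => by ring
  have hrow : ∑ b : Fin n, ∑ x : Fin n, A b x ^ 2 = ip A A := by
    unfold ip
    exact Finset.sum_congr rfl fun _ _ => Finset.sum_congr rfl fun _ _ => by ring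
  have hd1 : ∑ b : Fin n, ∑ j : Fin n, (∑ x, A x b * A x j) * dl b j = ip A A := by
    rw [Finset.sum_comm]
    have : ∀ j : Fin n, ∑ b : Fin n, (∑ x, A x b * A x j) * dl b j = ∑ x, A x j ^ 2 := by
      intro j
      rw [sum_dl j (fun b => ∑ x, A x b * A x j)]
      exact Finset.sum_congr rfl fun _ _ => by ring
    simp only [this]
    exact hcol
  have hd2 : ∑ b : Fin n, ∑ j : Fin n, (∑ y, A b y * A j y) * dl b j = ip A A := by
    rw [Finset.sum_comm]
    have : ∀ j : Fin n, ∑ b : Fin n, (∑ y, A b y * A j y) * dl b j = ∑ y, A j y ^ 2 := by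
      intro j
      rw [sum_dl j (fun b => ∑ y, A b y * A j y)]
      exact Finset.sum_congr rfl fun _ _ => by ring
    simp only [this]
    exact hrow
  have htr : ∑ b : Fin n, A b b * ∑ j : Fin n, A j j = A.trace ^ 2 := by
    rw [← Finset.sum_mul, sq]
    rfl
  have hT : ∑ b : Fin n, ∑ j : Fin n, A b j * A j b = ip A Aᵀ := rfl
  simp only [Finset.sum_add_distrib, Finset.sum_sub_distrib, ← Finset.mul_sum, Finset.sum_const,
    Finset.card_univ, Fintype.card_fin, nsmul_eq_mul, hcol, hrow, hd1, hd2, htr, hT]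
  ring

theorem norm_sq_Gen (b j : Fin n) (X : Tup r n) :
    ‖Gen b j X‖ ^ 2 = ∑ l, ip (mt X l * Em j (ev b) - Em j (ev b) * mt X l)
      (mt X l * Em j (ev b) - Em j (ev b) * mt X l) := by
  rw [norm_sq_eq]
  simp only [mt_Gen]

/-- the Casimir identity for tuples -/
theorem casimir_tup (X : Tup r n) :
    ∑ b, ∑ j, ‖Gen b j X‖ ^ 2 = ∑ l, (4 * ((n : ℝ) - 1) * ip (mt X l) (mt X l)
      + 4 * ip (mt X l) (mt X l)ᵀ - 4 * (mt X l).trace ^ 2) := by
  simp only [norm_sq_Gen]
  have h : ∀ b : Fin n, ∑ j : Fin n, ∑ l, ip (mt X l * Em j (ev b) - Em j (ev b) * mt X l)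
      (mt X l * Em j (ev b) - Em j (ev b) * mt X l)
      = ∑ l, ∑ j : Fin n, ip (mt X l * Em j (ev b) - Em j (ev b) * mt X l)
      (mt X l * Em j (ev b) - Em j (ev b) * mt X l) := fun b => Finset.sum_comm
  simp only [h]
  rw [Finset.sum_comm]
  exact Finset.sum_congr rfl fun l _ => casimir_one _

theorem sym_trace (A : Matrix (Fin n) (Fin n) ℝ) :
    2 * A.trace ^ 2 ≤ (n : ℝ) * (ip A A + ip A Aᵀ) := by
  have h1 : A.trace ^ 2 ≤ (n : ℝ) * ∑ i, A i i ^ 2 := by
    have := sq_sum_le_card_mul_sum_sq (s := (Finset.univ : Finset (Fin n))) (f := fun i => A i i)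
    simpa [Matrix.trace] using this
  have h2 : 2 * ∑ i, A i i ^ 2 ≤ ip A A + ip A Aᵀ := by
    have e1 : ip A A = ∑ i, ∑ j, A i j ^ 2 := by
      unfold ip
      exact Finset.sum_congr rfl fun _ _ => Finset.sum_congr rfl fun _ _ => by ring
    have e2 : ip A A = ∑ i, ∑ j, A j i ^ 2 := by
      rw [e1, Finset.sum_comm]
    have e3 : 2 * (ip A A + ip A Aᵀ) = ∑ i, ∑ j, (A i j + A j i) ^ 2 := by
      have : ∑ i, ∑ j, (A i j + A j i) ^ 2
          = (∑ i, ∑ j, A i j ^ 2) + 2 * (∑ i, ∑ j, A i j * Aᵀ i j) + ∑ i, ∑ j, A j i ^ 2 := by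
        rw [Finset.mul_sum, ← Finset.sum_add_distrib, ← Finset.sum_add_distrib]
        refine Finset.sum_congr rfl fun i _ => ?_
        rw [Finset.mul_sum, ← Finset.sum_add_distrib, ← Finset.sum_add_distrib]
        refine Finset.sum_congr rfl fun j _ => ?_
        rw [Matrix.transpose_apply]; ring
      rw [this, ← e1, ← e2]
      unfold ip
      ring
    have h3 : ∀ i, (2 * A i i) ^ 2 ≤ ∑ j, (A i j + A j i) ^ 2 := by
      intro i
      have := Finset.single_le_sum (f := fun j => (A i j + A j i) ^ 2) (fun j _ => sq_nonneg _)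
        (Finset.mem_univ i)
      refine le_trans (le_of_eq ?_) this
      ring
    have h4 : ∑ i, (2 * A i i) ^ 2 ≤ ∑ i, ∑ j, (A i j + A j i) ^ 2 :=
      Finset.sum_le_sum fun i _ => h3 i
    have h5 : ∑ i, (2 * A i i) ^ 2 = 4 * ∑ i, A i i ^ 2 := by
      rw [Finset.mul_sum]; exact Finset.sum_congr rfl fun _ _ => by ring
    linarith
  have hn : (0:ℝ) ≤ n := Nat.cast_nonneg n
  nlinarith

/-- normalised traces -/
noncomputable def trP : Tup r n →ₗ[ℝ] EuclideanSpace ℝ (Fin r) where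
  toFun X := WithLp.toLp 2 fun l => (mt X l).trace / Real.sqrt n
  map_add' X Y := by
    ext l
    simp [Matrix.trace_add, add_div]
  map_smul' c X := by
    ext l
    simp [Matrix.trace_smul, mul_div_assoc]

theorem norm_trP_sq (X : Tup r n) :
    ‖trP X‖ ^ 2 = ∑ l, (mt X l).trace ^ 2 / n := by
  rw [EuclideanSpace.norm_sq_eq]
  refine Finset.sum_congr rfl fun l _ => ?_
  have : (trP X) l = (mt X l).trace / Real.sqrt n := rfl
  rw [this, Real.norm_eq_abs, sq_abs, div_pow, Real.sq_sqrt (Nat.cast_nonneg n)]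

/-- lower frame bound -/
theorem casimir_lower (hn : 0 < n) (X : Tup r n) :
    4 * ((n : ℝ) - 2) * (‖X‖ ^ 2 - ‖trP X‖ ^ 2) ≤ ∑ b, ∑ j, ‖Gen b j X‖ ^ 2 := by
  rw [casimir_tup, norm_trP_sq, norm_sq_eq, ← Finset.sum_sub_distrib, Finset.mul_sum]
  refine Finset.sum_le_sum fun l _ => ?_
  have h := sym_trace (mt X l)
  have hn' : (0:ℝ) < n := by exact_mod_cast hn
  have h2 : 2 * (mt X l).trace ^ 2 / n ≤ ip (mt X l) (mt X l) + ip (mt X l) (mt X l)ᵀ := by
    rw [div_le_iff₀ hn']; linarith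
  have e : 4 * ((n : ℝ) - 2) * (ip (mt X l) (mt X l) - (mt X l).trace ^ 2 / n)
      = 4 * ((n : ℝ) - 2) * ip (mt X l) (mt X l) - 4 * (mt X l).trace ^ 2
        + 4 * (2 * (mt X l).trace ^ 2 / n) := by
    field_simp; ring
  rw [e]
  nlinarith

end Pool.Agent.H46.Cj
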