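import Pool.Agent.H46.Cj.Frame
import Pool.Agent.H97.KlsRep

/-!
The representation of `SO(n)` on a subspace of tuples invariant under simultaneous conjugation.
-/

set_option autoImplicit false
set_option linter.unusedSectionVars false
set_option linter.unusedSimpArgs false

open MeasureTheory Measure Set TopologicalSpace Matrix

namespace Pool.Agent.H46.Cj

open Pool.H97.KLS (OG rot rotM Em Pm ev ev_dot_ev mul_transpose_self transpose_mul_self rotM_det)
open Pool.H97.KLSR (Rep)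

variable {r n : ℕ}
variable {E : Type*} [NormedAddCommGroup E] [InnerProductSpace ℝ E] [FiniteDimensional ℝ E]

/-- The range of `φ` is invariant under simultaneous conjugation by `SO(n)`. -/
def InvRange (φ : E →ₗᵢ[ℝ] Tup r n) : Prop :=
  ∀ O : Matrix (Fin n) (Fin n) ℝ, O * Oᵀ = 1 → O.det = 1 → ∀ x, ∃ y, φ y = conj O (φ x)

variable (φ : E →ₗᵢ[ℝ] Tup r n)

/-- adjoint of `φ` -/
noncomputable def adj : Tup r n →L[ℝ] E :=
  LinearMap.toContinuousLinearMap (LinearMap.adjoint φ.toLinearMap)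

theorem inner_adj (X : Tup r n) (y : E) : inner ℝ (adj φ X) y = inner ℝ X (φ y) :=
  LinearMap.adjoint_inner_left φ.toLinearMap y X

theorem inner_adj' (X : Tup r n) (y : E) : inner ℝ y (adj φ X) = inner ℝ (φ y) X :=
  LinearMap.adjoint_inner_right φ.toLinearMap y X

theorem adj_apply (x : E) : adj φ (φ x) = x := by
  refine ext_inner_right ℝ fun v => ?_
  rw [inner_adj, φ.inner_map_map]

theorem norm_adj_le (X : Tup r n) : ‖adj φ X‖ ≤ ‖X‖ := by
  by_cases h0 : adj φ X = 0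
  · rw [h0]; simp
  have h1 : ‖adj φ X‖ ^ 2 ≤ ‖X‖ * ‖adj φ X‖ := by
    rw [← real_inner_self_eq_norm_sq, inner_adj]
    refine (real_inner_le_norm _ _).trans ?_
    rw [φ.norm_map]
  have h2 : 0 < ‖adj φ X‖ := norm_pos_iff.2 h0
  nlinarith

theorem transpose_orth {O : Matrix (Fin n) (Fin n) ℝ} (hO : O * Oᵀ = 1) : Oᵀ * O = 1 :=
  mul_eq_one_comm.mp hO

theorem inner_conj_left {O : Matrix (Fin n) (Fin n) ℝ} (hO : O * Oᵀ = 1) (Z W : Tup r n) :
    inner ℝ (conj O Z) W = inner ℝ Z (conj Oᵀ W) := by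
  have h := inner_conj O hO Z (conj Oᵀ W)
  rw [← conj_mul, transpose_orth hO, conj_one] at h
  exact h

variable {φ}

theorem proj_conj (hφ : InvRange φ) {O : Matrix (Fin n) (Fin n) ℝ} (hO : O * Oᵀ = 1)
    (hd : O.det = 1) (x : E) : φ (adj φ (conj O (φ x))) = conj O (φ x) := by
  obtain ⟨y, hy⟩ := hφ O hO hd x
  rw [← hy, adj_apply]

theorem adj_conj (hφ : InvRange φ) {O : Matrix (Fin n) (Fin n) ℝ} (hO : O * Oᵀ = 1)
    (hd : O.det = 1) (Z : Tup r n) : adj φ (conj O Z) = adj φ (conj O (φ (adj φ Z))) := by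
  refine ext_inner_right ℝ fun y => ?_
  have hOT : Oᵀ * Oᵀᵀ = 1 := by rw [Matrix.transpose_transpose]; exact transpose_orth hO
  have hdT : Oᵀ.det = 1 := by rw [Matrix.det_transpose, hd]
  obtain ⟨y', hy'⟩ := hφ Oᵀ hOT hdT y
  rw [inner_adj, inner_adj, inner_conj_left hO, inner_conj_left hO, ← hy', φ.inner_map_map,
    ← inner_adj]

theorem rot_orth (j : Fin n) (w : Fin n → ℝ) (hj : w j = 0) (hw : w ⬝ᵥ w = 1) (t : ℝ) :
    rotM j w t * (rotM j w t)ᵀ = 1 := mul_transpose_self (rot j w hj hw t)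

/-- the representation -/
noncomputable def conjRep (hφ : InvRange φ) : Rep (Fin n) E where
  act O := (adj φ).comp ((conjL O.1).comp φ.toContinuousLinearMap)
  gen b j := (adj φ).comp ((Gen b j).comp φ.toContinuousLinearMap)
  act_mul A B hB X := by
    show adj φ (conj (A * B).1 (φ X)) = adj φ (conj B.1 (φ (adj φ (conj A.1 (φ X)))))
    rw [← adj_conj hφ (mul_transpose_self B) hB, ← conj_mul]
    rfl
  act_one X := by
    show adj φ (conj (1 : OG (Fin n)).1 (φ X)) = X
    have : (1 : OG (Fin n)).1 = 1 := rfl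
    rw [this, conj_one, adj_apply]
  norm_act O hO X := by
    show ‖adj φ (conj O.1 (φ X))‖ = ‖X‖
    rw [← φ.norm_map (adj φ (conj O.1 (φ X))), proj_conj hφ (mul_transpose_self O) hO,
      norm_conj _ (mul_transpose_self O), φ.norm_map]
  cont := by
    rw [continuous_clm_apply]
    intro X
    show Continuous fun O : OG (Fin n) => adj φ (conj O.1 (φ X))
    refine (adj φ).continuous.comp ?_
    exact continuous_conj.comp (continuous_subtype_val.prodMk continuous_const)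
  gen_diag a := by
    ext1 X
    show adj φ (Gen a a (φ X)) = 0
    have : Gen a a (φ X) = 0 := by
      apply tup_ext; intro l
      rw [mt_Gen, Pool.H97.KLS.Em_self]
      simp
    rw [this, map_zero]
  der j w hj hw Y θ := by
    show HasDerivAt (fun t => adj φ (conj (rotM j w t) (φ Y)))
      (∑ b, w b • adj φ (Gen b j (φ (adj φ (conj (rotM j w θ) (φ Y)))))) θ
    rw [proj_conj hφ (rot_orth j w hj hw θ) (rotM_det j w hj hw θ)]
    have h := (adj φ).hasFDerivAt.comp_hasDerivAt θ (hasDerivAt_conj j w hj hw (φ Y) θ)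
    rw [GenW_sum, _root_.map_sum] at h
    simp only [map_smul] at h
    exact h

theorem conjRep_act (hφ : InvRange φ) (O : OG (Fin n)) (hO : O.1.det = 1) (x : E) :
    φ ((conjRep hφ).act O x) = conj O.1 (φ x) :=
  proj_conj hφ (mul_transpose_self O) hO x

theorem conjRep_gen (hφ : InvRange φ) (b j : Fin n) (x : E) :
    φ ((conjRep hφ).gen b j x) = Gen b j (φ x) := by
  by_cases hbj : b = j
  · subst hbj
    rw [(conjRep hφ).gen_diag]
    have : Gen b b (φ x) = 0 := by
      apply tup_ext; intro l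
      rw [mt_Gen, Pool.H97.KLS.Em_self]
      simp
    rw [this]
    simp
  have h1 := (conjRep hφ).der_ev_zero hbj x
  have h2 := φ.toContinuousLinearMap.hasFDerivAt.comp_hasDerivAt (0:ℝ) h1
  have e : (φ.toContinuousLinearMap ∘ fun t => (conjRep hφ).act
      (rot j (ev b) (Pool.H97.KLSR.Rep.ev_ne hbj) (ev_dot_ev b) t) x)
      = fun t => conj (rotM j (ev b) t) (φ x) := by
    funext t
    exact conjRep_act hφ _ (rotM_det j _ (Pool.H97.KLSR.Rep.ev_ne hbj) (ev_dot_ev b) t) x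
  rw [e] at h2
  have h3 := hasDerivAt_conj j (ev b) (Pool.H97.KLSR.Rep.ev_ne hbj) (ev_dot_ev b) (φ x) 0
  rw [Pool.H97.KLS.rotM_zero, conj_one] at h3
  exact h2.unique h3

theorem conjRep_casimir (hφ : InvRange φ) (hn : 0 < n) (w : E) :
    4 * ((n : ℝ) - 2) * (‖w‖ ^ 2 - ‖trP (φ w)‖ ^ 2)
      ≤ ∑ b, ∑ j, ‖(conjRep hφ).gen b j w‖ ^ 2 := by
  have h := casimir_lower hn (φ w)
  rw [φ.norm_map] at h
  refine h.trans (le_of_eq ?_)
  refine Finset.sum_congr rfl fun b _ => Finset.sum_congr rfl fun j _ => ?_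
  rw [← conjRep_gen hφ, φ.norm_map]

theorem conjRep_frame (hφ : InvRange φ) (x v : E) (c ρ : Fin r → ℝ) (hρ : ∀ l, 0 ≤ ρ l)
    (hX : ∀ l, Opb (mt (φ x) l) (c l) (ρ l)) {R2 : ℝ} (hR : ∑ l, ρ l ^ 2 ≤ R2) :
    ∑ b, ∑ j, inner ℝ ((conjRep hφ).gen b j x) v ^ 2 ≤ 16 * R2 * ‖v‖ ^ 2 := by
  have h := frame_upper (φ x) (φ v) c ρ hρ hX hR
  rw [φ.norm_map] at h
  refine le_trans (le_of_eq ?_) h
  refine Finset.sum_congr rfl fun b _ => Finset.sum_congr rfl fun j _ => ?_
  rw [← conjRep_gen hφ, φ.inner_map_map]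

theorem trP_conj {O : Matrix (Fin n) (Fin n) ℝ} (hO : O * Oᵀ = 1) (X : Tup r n) :
    trP (conj O X) = trP X := by
  ext l
  show (mt (conj O X) l).trace / Real.sqrt n = (mt X l).trace / Real.sqrt n
  rw [mt_conj, Matrix.trace_mul_comm, ← Matrix.mul_assoc, hO, Matrix.one_mul]

end Pool.Agent.H46.Cj
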