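import Pool.Agent.H97.KlsAngular2

/-!
Tuples of real square matrices with the Frobenius norm, simultaneous conjugation, and its
infinitesimal generators.
-/

set_option autoImplicit false
set_option linter.unusedSectionVars false
set_option linter.unusedSimpArgs false

open MeasureTheory Measure Set TopologicalSpace Matrix

namespace Pool.Agent.H46.Cj

open Pool.H97.KLS (OG rot rotM Em Pm ev ev_dot_ev)

/-- `r`-tuples of real `n × n` matrices with the Frobenius norm. -/
abbrev Tup (r n : ℕ) := EuclideanSpace ℝ (Fin r × Fin n × Fin n)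

/-- Simultaneous conjugation `X_l ↦ Oᵀ X_l O`. -/
noncomputable def conj {r n : ℕ} (O : Matrix (Fin n) (Fin n) ℝ) (X : Tup r n) : Tup r n :=
  WithLp.toLp 2 fun p => (Oᵀ * (Matrix.of fun i j => X (p.1, i, j)) * O) p.2.1 p.2.2

variable {r n : ℕ}

/-- the `l`-th matrix -/
def mt (X : Tup r n) (l : Fin r) : Matrix (Fin n) (Fin n) ℝ := Matrix.of fun i j => X (l, i, j)

@[simp] theorem mt_apply (X : Tup r n) (l : Fin r) (i j : Fin n) : mt X l i j = X (l, i, j) := rfl

/-- the tuple with given matrices -/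
noncomputable def ofM (A : Fin r → Matrix (Fin n) (Fin n) ℝ) : Tup r n :=
  WithLp.toLp 2 fun p => A p.1 p.2.1 p.2.2

@[simp] theorem mt_ofM (A : Fin r → Matrix (Fin n) (Fin n) ℝ) (l : Fin r) : mt (ofM A) l = A l := by
  ext i j; rfl

theorem tup_ext {X Y : Tup r n} (h : ∀ l, mt X l = mt Y l) : X = Y := by
  ext p
  obtain ⟨l, i, j⟩ := p
  have := congrFun (congrFun (h l) i) j
  exact this

theorem conj_eq (O : Matrix (Fin n) (Fin n) ℝ) (X : Tup r n) :
    conj O X = ofM fun l => Oᵀ * mt X l * O := rfl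

@[simp] theorem mt_conj (O : Matrix (Fin n) (Fin n) ℝ) (X : Tup r n) (l : Fin r) :
    mt (conj O X) l = Oᵀ * mt X l * O := by
  rw [conj_eq, mt_ofM]

@[simp] theorem mt_add (X Y : Tup r n) (l : Fin r) : mt (X + Y) l = mt X l + mt Y l := by
  ext i j; rfl

@[simp] theorem mt_sub (X Y : Tup r n) (l : Fin r) : mt (X - Y) l = mt X l - mt Y l := by
  ext i j; rfl

@[simp] theorem mt_smul (c : ℝ) (X : Tup r n) (l : Fin r) : mt (c • X) l = c • mt X l := by
  ext i j; rfl

@[simp] theorem mt_neg (X : Tup r n) (l : Fin r) : mt (-X) l = - mt X l := by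
  ext i j; rfl

@[simp] theorem mt_zero (l : Fin r) : mt (0 : Tup r n) l = 0 := by
  ext i j; rfl

/-- Frobenius inner product -/
def ip (A B : Matrix (Fin n) (Fin n) ℝ) : ℝ := ∑ i, ∑ j, A i j * B i j

theorem ip_eq_trace (A B : Matrix (Fin n) (Fin n) ℝ) : ip A B = (Aᵀ * B).trace := by
  unfold ip
  rw [Matrix.trace, Finset.sum_comm]
  refine Finset.sum_congr rfl (fun j _ => ?_)
  rw [Matrix.diag_apply, Matrix.mul_apply]
  rfl

theorem inner_eq (X Y : Tup r n) : inner ℝ X Y = ∑ l, ip (mt X l) (mt Y l) := by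
  simp only [PiLp.inner_apply, RCLike.inner_apply, conj_trivial, Fintype.sum_prod_type, ip,
    mt_apply]
  refine Finset.sum_congr rfl (fun l _ => Finset.sum_congr rfl (fun i _ =>
    Finset.sum_congr rfl (fun j _ => mul_comm _ _)))

theorem norm_sq_eq (X : Tup r n) : ‖X‖ ^ 2 = ∑ l, ip (mt X l) (mt X l) := by
  rw [← real_inner_self_eq_norm_sq, inner_eq]

theorem ip_comm (A B : Matrix (Fin n) (Fin n) ℝ) : ip A B = ip B A := by
  unfold ip
  refine Finset.sum_congr rfl (fun i _ => Finset.sum_congr rfl (fun j _ => mul_comm _ _))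

theorem ip_self_nonneg (A : Matrix (Fin n) (Fin n) ℝ) : 0 ≤ ip A A :=
  Finset.sum_nonneg fun _ _ => Finset.sum_nonneg fun _ _ => mul_self_nonneg _

theorem ip_add_left (A B C : Matrix (Fin n) (Fin n) ℝ) : ip (A + B) C = ip A C + ip B C := by
  simp only [ip, Matrix.add_apply, add_mul, Finset.sum_add_distrib]

theorem ip_add_right (A B C : Matrix (Fin n) (Fin n) ℝ) : ip A (B + C) = ip A B + ip A C := by
  simp only [ip, Matrix.add_apply, mul_add, Finset.sum_add_distrib]

theorem ip_sub_left (A B C : Matrix (Fin n) (Fin n) ℝ) : ip (A - B) C = ip A C - ip B C := by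
  simp only [ip, Matrix.sub_apply, sub_mul, Finset.sum_sub_distrib]

theorem ip_sub_right (A B C : Matrix (Fin n) (Fin n) ℝ) : ip A (B - C) = ip A B - ip A C := by
  simp only [ip, Matrix.sub_apply, mul_sub, Finset.sum_sub_distrib]

theorem ip_smul_left (c : ℝ) (A B : Matrix (Fin n) (Fin n) ℝ) : ip (c • A) B = c * ip A B := by
  simp only [ip, Matrix.smul_apply, smul_eq_mul, Finset.mul_sum, mul_assoc]

theorem ip_smul_right (c : ℝ) (A B : Matrix (Fin n) (Fin n) ℝ) : ip A (c • B) = c * ip A B := by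
  rw [ip_comm, ip_smul_left, ip_comm]

theorem ip_conj (O : Matrix (Fin n) (Fin n) ℝ) (hO : O * Oᵀ = 1) (A B : Matrix (Fin n) (Fin n) ℝ) :
    ip (Oᵀ * A * O) (Oᵀ * B * O) = ip A B := by
  rw [ip_eq_trace, ip_eq_trace]
  have h1 : (Oᵀ * A * O)ᵀ * (Oᵀ * B * O) = Oᵀ * (Aᵀ * B * O) := by
    rw [Matrix.transpose_mul, Matrix.transpose_mul, Matrix.transpose_transpose]
    calc Oᵀ * (Aᵀ * O) * (Oᵀ * B * O) = Oᵀ * Aᵀ * (O * Oᵀ) * B * O := by
          simp only [Matrix.mul_assoc]
      _ = Oᵀ * (Aᵀ * B * O) := by rw [hO, Matrix.mul_one]; simp only [Matrix.mul_assoc]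
  rw [h1, Matrix.trace_mul_comm, Matrix.mul_assoc, hO, Matrix.mul_one]

theorem conj_add (O : Matrix (Fin n) (Fin n) ℝ) (X Y : Tup r n) :
    conj O (X + Y) = conj O X + conj O Y := by
  apply tup_ext; intro l
  simp [Matrix.mul_add, Matrix.add_mul]

theorem conj_smul (O : Matrix (Fin n) (Fin n) ℝ) (c : ℝ) (X : Tup r n) :
    conj O (c • X) = c • conj O X := by
  apply tup_ext; intro l
  simp

theorem conj_mul (A B : Matrix (Fin n) (Fin n) ℝ) (X : Tup r n) :
    conj (A * B) X = conj B (conj A X) := by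
  apply tup_ext; intro l
  simp only [mt_conj, Matrix.transpose_mul, Matrix.mul_assoc]

theorem conj_one (X : Tup r n) : conj 1 X = X := by
  apply tup_ext; intro l
  simp

theorem inner_conj (O : Matrix (Fin n) (Fin n) ℝ) (hO : O * Oᵀ = 1) (X Y : Tup r n) :
    inner ℝ (conj O X) (conj O Y) = inner ℝ X Y := by
  rw [inner_eq, inner_eq]
  refine Finset.sum_congr rfl (fun l _ => ?_)
  rw [mt_conj, mt_conj, ip_conj O hO]

theorem norm_conj (O : Matrix (Fin n) (Fin n) ℝ) (hO : O * Oᵀ = 1) (X : Tup r n) :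
    ‖conj O X‖ = ‖X‖ := by
  rw [@norm_eq_sqrt_real_inner _ _ _ (conj O X), inner_conj O hO, ← norm_eq_sqrt_real_inner]

/-- conjugation as a linear map -/
noncomputable def conjL (O : Matrix (Fin n) (Fin n) ℝ) : Tup r n →L[ℝ] Tup r n :=
  LinearMap.toContinuousLinearMap
    { toFun := fun X => conj O X
      map_add' := conj_add O
      map_smul' := fun c X => conj_smul O c X }

@[simp] theorem conjL_apply (O : Matrix (Fin n) (Fin n) ℝ) (X : Tup r n) :
    conjL O X = conj O X := rfl

theorem continuous_mt (l : Fin r) : Continuous fun X : Tup r n => mt X l := by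
  refine continuous_matrix fun i j => ?_
  simp only [mt_apply]
  fun_prop

theorem continuous_ofM {Z : Type*} [TopologicalSpace Z] {f : Z → Fin r → Matrix (Fin n) (Fin n) ℝ}
    (hf : ∀ l, Continuous fun z => f z l) : Continuous fun z => ofM (f z) := by
  unfold ofM
  refine (PiLp.continuous_toLp 2 _).comp (continuous_pi fun p => ?_)
  exact (hf p.1).matrix_elem p.2.1 p.2.2

theorem continuous_conj :
    Continuous fun p : Matrix (Fin n) (Fin n) ℝ × Tup r n => conj p.1 p.2 := by
  simp only [conj_eq]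
  refine continuous_ofM fun l => ?_
  have h1 : Continuous fun p : Matrix (Fin n) (Fin n) ℝ × Tup r n => mt p.2 l :=
    (continuous_mt l).comp continuous_snd
  have h2 : Continuous fun p : Matrix (Fin n) (Fin n) ℝ × Tup r n => p.1 := continuous_fst
  exact (h2.matrix_transpose.matrix_mul h1).matrix_mul h2

/-- generator with general `w` -/
noncomputable def GenW (j : Fin n) (w : Fin n → ℝ) (X : Tup r n) : Tup r n :=
  ofM fun l => mt X l * Em j w - Em j w * mt X l

/-- generator -/
noncomputable def Gen (b j : Fin n) : Tup r n →L[ℝ] Tup r n :=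
  LinearMap.toContinuousLinearMap
    { toFun := fun X => GenW j (ev b) X
      map_add' := fun X Y => by
        apply tup_ext; intro l
        simp only [GenW, mt_ofM, mt_add, Matrix.add_mul, Matrix.mul_add]
        abel
      map_smul' := fun c X => by
        apply tup_ext; intro l
        simp only [GenW, mt_ofM, mt_smul, RingHom.id_apply, Matrix.smul_mul, Matrix.mul_smul,
          smul_sub] }

theorem Gen_apply (b j : Fin n) (X : Tup r n) : Gen b j X = GenW j (ev b) X := rfl

@[simp] theorem mt_Gen (b j : Fin n) (X : Tup r n) (l : Fin r) :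
    mt (Gen b j X) l = mt X l * Em j (ev b) - Em j (ev b) * mt X l := by
  rw [Gen_apply, GenW, mt_ofM]

theorem GenW_sum (j : Fin n) (w : Fin n → ℝ) (X : Tup r n) :
    GenW j w X = ∑ b, w b • Gen b j X := by
  have hsum : ∀ l, mt (∑ b, w b • Gen b j X : Tup r n) l = ∑ b, mt (w b • Gen b j X) l := by
    intro l
    have : ∀ (s : Finset (Fin n)), mt (∑ b ∈ s, w b • Gen b j X : Tup r n) l
        = ∑ b ∈ s, mt (w b • Gen b j X) l := by
      intro s
      classical
      induction s using Finset.induction_on with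
      | empty => simp
      | insert a s ha ih => rw [Finset.sum_insert ha, Finset.sum_insert ha, mt_add, ih]
    exact this _
  apply tup_ext; intro l
  rw [hsum, GenW, mt_ofM]
  simp only [mt_smul, mt_Gen]
  rw [Pool.H97.KLS.Em_sum j w, Finset.mul_sum, Finset.sum_mul, ← Finset.sum_sub_distrib]
  refine Finset.sum_congr rfl (fun b _ => ?_)
  rw [Matrix.mul_smul, Matrix.smul_mul, smul_sub]

/-- derivative along rotations -/
theorem hasDerivAt_conj (j : Fin n) (w : Fin n → ℝ) (hj : w j = 0) (hw : w ⬝ᵥ w = 1)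
    (Y : Tup r n) (θ : ℝ) :
    HasDerivAt (fun t => conj (rotM j w t) Y) (GenW j w (conj (rotM j w θ) Y)) θ := by
  -- `A t = rotM j w t`, `A' = A * E`
  set P := Pm j w
  set E := Em j w
  have hA : ∀ t, rotM j w t = 1 + (Real.cos t - 1) • P + Real.sin t • E := fun t => rfl
  have hAT : ∀ t, (rotM j w t)ᵀ = 1 + (Real.cos t - 1) • P - Real.sin t • E := by
    intro t
    rw [Pool.H97.KLS.rotM_transpose, hA, Real.cos_neg, Real.sin_neg]
    module
  -- expand as a combination of fixed tuples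
  let F : (Matrix (Fin n) (Fin n) ℝ) → (Matrix (Fin n) (Fin n) ℝ) → Tup r n :=
    fun A B => ofM fun l => A * mt Y l * B
  have hF1 : ∀ A A' B, F (A + A') B = F A B + F A' B := by
    intro A A' B; apply tup_ext; intro l; simp [F, Matrix.add_mul]
  have hF2 : ∀ A B B', F A (B + B') = F A B + F A B' := by
    intro A B B'; apply tup_ext; intro l; simp [F, Matrix.mul_add]
  have hF3 : ∀ (c : ℝ) A B, F (c • A) B = c • F A B := by
    intro c A B; apply tup_ext; intro l; simp [F]
  have hF4 : ∀ (c : ℝ) A B, F A (c • B) = c • F A B := by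
    intro c A B; apply tup_ext; intro l; simp [F]
  have hconj : ∀ A, conj A Y = F Aᵀ A := fun A => by rw [conj_eq]
  have hexp : ∀ t, conj (rotM j w t) Y
      = F 1 1 + (Real.cos t - 1) • (F 1 P + F P 1) + (Real.cos t - 1) ^ 2 • F P P
        + Real.sin t • (F 1 E - F E 1) + ((Real.cos t - 1) * Real.sin t) • (F P E - F E P)
        - (Real.sin t) ^ 2 • F E E := by
    intro t
    rw [hconj, hAT, hA, sub_eq_add_neg, ← neg_smul]
    simp only [hF1, hF2, hF3, hF4]
    module
  have hfun : (fun t => conj (rotM j w t) Y) = fun t =>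
      F 1 1 + (Real.cos t - 1) • (F 1 P + F P 1) + (Real.cos t - 1) ^ 2 • F P P
        + Real.sin t • (F 1 E - F E 1) + ((Real.cos t - 1) * Real.sin t) • (F P E - F E P)
        - (Real.sin t) ^ 2 • F E E := funext hexp
  rw [hfun]
  have hc : HasDerivAt (fun t => Real.cos t - 1) (-Real.sin θ) θ :=
    (Real.hasDerivAt_cos θ).sub_const 1
  have hs : HasDerivAt (fun t => Real.sin t) (Real.cos θ) θ := Real.hasDerivAt_sin θ
  have hc2 : HasDerivAt (fun t => (Real.cos t - 1) ^ 2)
      (2 * (Real.cos θ - 1) * (-Real.sin θ)) θ := by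
    refine HasDerivAt.congr_deriv (hc.pow 2 : HasDerivAt (fun t => (Real.cos t - 1) ^ 2) _ θ) ?_
    simp
  have hs2 : HasDerivAt (fun t => (Real.sin t) ^ 2) (2 * Real.sin θ * Real.cos θ) θ := by
    refine HasDerivAt.congr_deriv (hs.pow 2 : HasDerivAt (fun t => (Real.sin t) ^ 2) _ θ) ?_
    simp
  have hcs : HasDerivAt (fun t => (Real.cos t - 1) * Real.sin t)
      (-Real.sin θ * Real.sin θ + (Real.cos θ - 1) * Real.cos θ) θ := hc.mul hs
  have hD := (((((hasDerivAt_const θ (F 1 1)).add (hc.smul_const (F 1 P + F P 1))).add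
    (hc2.smul_const (F P P))).add (hs.smul_const (F 1 E - F E 1))).add
    (hcs.smul_const (F P E - F E P))).sub (hs2.smul_const (F E E))
  refine hD.congr_deriv ?_
  -- identify
  have hPE : P * E = E := Pool.H97.KLS.Pm_mul_Em j w hj hw
  have hEP : E * P = E := Pool.H97.KLS.Em_mul_Pm j w hj hw
  have hEE : E * E = -P := Pool.H97.KLS.Em_mul_Em j w hj hw
  have hG : GenW j w (conj (rotM j w θ) Y)
      = F (rotM j w θ)ᵀ (rotM j w θ * E) - F (E * (rotM j w θ)ᵀ) (rotM j w θ) := by
    apply tup_ext; intro l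
    simp only [GenW, mt_ofM, mt_conj, mt_sub, F]
    simp only [Matrix.mul_assoc]
    rfl
  rw [hG]
  have e1 : rotM j w θ * E = (-Real.sin θ) • P + Real.cos θ • E := by
    rw [hA, Matrix.add_mul, Matrix.add_mul, Matrix.one_mul, Matrix.smul_mul, Matrix.smul_mul,
      hPE, hEE]
    module
  have e2 : E * (rotM j w θ)ᵀ = Real.cos θ • E + Real.sin θ • P := by
    rw [hAT, Matrix.mul_sub, Matrix.mul_add, Matrix.mul_one, Matrix.mul_smul, Matrix.mul_smul,
      hEP, hEE]
    module
  rw [e1, e2, hAT, hA, sub_eq_add_neg (1 + (Real.cos θ - 1) • P), ← neg_smul]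
  simp only [hF1, hF2, hF3, hF4]
  module

end Pool.Agent.H46.Cj
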