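import Pool.Agent.H46.Cj.Poinc

/-!
The hyperplane inequality for bodies invariant under simultaneous conjugation.
-/

set_option autoImplicit false
set_option linter.unusedSectionVars false
set_option linter.unusedSimpArgs false

open MeasureTheory Measure Set TopologicalSpace Matrix
open scoped ENNReal NNReal

namespace Pool.Agent.H46.Cj

open Pool.H97.KLS (OG mul_transpose_self)
open Pool.H97.KLSR (Rep)
open Pool.Agent.H84 (CB PC)

theorem finrank_le {r n N : ℕ}
    (φ : EuclideanSpace ℝ (Fin N) →ₗᵢ[ℝ] EuclideanSpace ℝ (Fin r × Fin n × Fin n)) :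
    N ≤ r * (n * n) := by
  have h := LinearMap.finrank_le_finrank_of_injective (f := φ.toLinearMap) φ.injective
  rw [finrank_euclideanSpace, finrank_euclideanSpace] at h
  simpa using h

theorem main {r n N : ℕ}
    (φ : EuclideanSpace ℝ (Fin N) →ₗᵢ[ℝ] EuclideanSpace ℝ (Fin r × Fin n × Fin n))
    {Ω E : Set (EuclideanSpace ℝ (Fin N))} (hΩo : IsOpen Ω) (hΩc : Convex ℝ Ω)
    (hΩb : Bornology.IsBounded Ω) (hsymm : ∀ x ∈ Ω, -x ∈ Ω) (hΩv : 0 < volume Ω)
    (hφ : InvRange φ) (hinv : (conjRep hφ).InvSet Ω)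
    (hE : MeasurableSet E) (hEΩ : E ⊆ Ω) (hEv : volume E = volume Ω / 2) :
    ∃ a : EuclideanSpace ℝ (Fin N), a ≠ 0 ∧
      μH[(N : ℝ) - 1] {x | x ∈ Ω ∧ inner ℝ a x = (0 : ℝ)}
        ≤ ENNReal.ofReal (12410000000 * Real.sqrt r) * μH[(N : ℝ) - 1] (Ω ∩ frontier E) := by
  have hne : Ω.Nonempty := by
    by_contra h
    rw [not_nonempty_iff_eq_empty] at h
    rw [h, measure_empty] at hΩv
    exact lt_irrefl _ hΩv
  have hVt : volume Ω ≠ ⊤ := hΩb.measure_lt_top.ne
  cases N with
  | zero =>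
    exfalso
    have hΩu : Ω = univ := by
      obtain ⟨x, hx⟩ := hne
      ext y
      simp only [mem_univ, iff_true]
      rwa [Subsingleton.elim y x]
    rcases E.eq_empty_or_nonempty with h | ⟨x, hx⟩
    · rw [h, measure_empty] at hEv
      have := ENNReal.half_pos hΩv.ne'
      rw [← hEv] at this
      exact lt_irrefl _ this
    · have hEu : E = Ω := by
        ext y
        have h1 : y ∈ E := by rwa [Subsingleton.elim y x]
        exact ⟨fun _ => hEΩ h1, fun _ => h1⟩
      rw [hEu] at hEv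
      have := ENNReal.half_lt_self hΩv.ne' hVt
      rw [← hEv] at this
      exact lt_irrefl _ this
  | succ N =>
    have hfr : Module.finrank ℝ (EuclideanSpace ℝ (Fin (N + 1))) = N + 1 := finrank_euclideanSpace_fin
    have hNle := finrank_le φ
    have hr : 0 < r := by
      rcases Nat.eq_zero_or_pos r with h | h
      · rw [h] at hNle; omega
      · exact h
    have hr0 : (0:ℝ) < r := by exact_mod_cast hr
    have hsr : 0 < Real.sqrt r := Real.sqrt_pos.2 hr0
    obtain ⟨a, ha, s, hs, hS, hred⟩ := Pool.Agent.H84.kls_reduce hfr hΩo hΩc hΩb hsymm hne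
    obtain ⟨R0, hR0⟩ := hΩb.subset_closedBall 0
    have hCB : CB Ω R0 := ⟨hΩc, hΩo.measurableSet, hR0, hΩv.ne'⟩
    have hex : ∃ K' : Set (EuclideanSpace ℝ (Fin (N + 1))), K' ⊆ Ω ∧ Convex ℝ K' ∧
        MeasurableSet K' ∧ 3 / 4 * volume.real Ω ≤ volume.real K' ∧
        PC K' (1700000 * Real.sqrt r * s) := by
      by_cases hn : 3 ≤ n
      · obtain ⟨k, rfl⟩ : ∃ k, n = k + 1 := ⟨n - 1, by omega⟩
        exact Kt_PC (by omega) hr hφ hCB hinv hs hS
      · obtain ⟨K', h1, h2, h3, h4, h5⟩ := low_PC hCB (m := r) hr0 (by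
          rw [hfr]
          have h6 : n * n ≤ 4 := by
            have : n ≤ 2 := by omega
            nlinarith
          have h7 : N + 1 ≤ 4 * r := by
            calc N + 1 ≤ r * (n * n) := hNle
              _ ≤ r * 4 := Nat.mul_le_mul_left r h6
              _ = 4 * r := Nat.mul_comm _ _
          exact_mod_cast h7) hs hS
        refine ⟨K', h1, h2, h3, h4, h5.mono (by positivity) ?_⟩
        gcongr
        norm_num
    obtain ⟨K', h1, h2, h3, h4, h5⟩ := hex
    have h6 := hred K' (1700000 * Real.sqrt r) (by positivity) h1 h2 h3 h4 h5 E hE hEΩ hEv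
    refine ⟨a, by intro h; rw [h, norm_zero] at ha; exact zero_ne_one ha, ?_⟩
    have e : (((N + 1 : ℕ) : ℝ) - 1) = N := by push_cast; ring
    rw [e]
    refine h6.trans (le_of_eq ?_)
    congr 2
    ring

end Pool.Agent.H46.Cj
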