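import Pool.Agent.H46.Cj.Alg

/-!
Upper frame bound for simultaneous conjugation.
-/

set_option autoImplicit false
set_option linter.unusedSectionVars false
set_option linter.unusedSimpArgs false

open Matrix

namespace Pool.Agent.H46.Cj

open Pool.H97.KLS (OG rot rotM Em Pm ev ev_dot_ev)

variable {r n : ℕ}

/-- `A` is within `ρ` of the scalar `c`, in operator norm -/
def Opb (A : Matrix (Fin n) (Fin n) ℝ) (c ρ : ℝ) : Prop :=
  ∀ v : Fin n → ℝ, (A *ᵥ v - c • v) ⬝ᵥ (A *ᵥ v - c • v) ≤ ρ ^ 2 * (v ⬝ᵥ v)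

theorem dot_self_nonneg (v : Fin n → ℝ) : 0 ≤ v ⬝ᵥ v :=
  Finset.sum_nonneg fun _ _ => mul_self_nonneg _

theorem dot_sq_le (v w : Fin n → ℝ) : (v ⬝ᵥ w) ^ 2 ≤ (v ⬝ᵥ v) * (w ⬝ᵥ w) := by
  have := Finset.sum_mul_sq_le_sq_mul_sq (Finset.univ : Finset (Fin n)) v w
  simp only [dotProduct]
  calc (∑ i, v i * w i) ^ 2 ≤ (∑ i, v i ^ 2) * ∑ i, w i ^ 2 := this
    _ = _ := by
      congr 1 <;> exact Finset.sum_congr rfl fun _ _ => by ring

theorem transpose_bound (B : Matrix (Fin n) (Fin n) ℝ) (ρ : ℝ)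
    (hB : ∀ v : Fin n → ℝ, (B *ᵥ v) ⬝ᵥ (B *ᵥ v) ≤ ρ ^ 2 * (v ⬝ᵥ v)) (v : Fin n → ℝ) :
    (Bᵀ *ᵥ v) ⬝ᵥ (Bᵀ *ᵥ v) ≤ ρ ^ 2 * (v ⬝ᵥ v) := by
  set y := Bᵀ *ᵥ v with hy
  have h1 : y ⬝ᵥ y = v ⬝ᵥ (B *ᵥ y) := by
    rw [hy, Matrix.mulVec_transpose, ← Matrix.dotProduct_mulVec]
  have h2 : (y ⬝ᵥ y) ^ 2 ≤ (v ⬝ᵥ v) * (ρ ^ 2 * (y ⬝ᵥ y)) := by
    calc (y ⬝ᵥ y) ^ 2 = (v ⬝ᵥ (B *ᵥ y)) ^ 2 := by rw [h1]
      _ ≤ (v ⬝ᵥ v) * ((B *ᵥ y) ⬝ᵥ (B *ᵥ y)) := dot_sq_le _ _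
      _ ≤ _ := mul_le_mul_of_nonneg_left (hB y) (dot_self_nonneg v)
  rcases (dot_self_nonneg y).eq_or_lt with h0 | hpos
  · rw [← h0]
    exact mul_nonneg (sq_nonneg _) (dot_self_nonneg v)
  · have h3 : (y ⬝ᵥ y) * (y ⬝ᵥ y) ≤ (ρ ^ 2 * (v ⬝ᵥ v)) * (y ⬝ᵥ y) := by
      calc _ = (y ⬝ᵥ y) ^ 2 := by ring
        _ ≤ _ := h2
        _ = _ := by ring
    exact le_of_mul_le_mul_right h3 hpos

theorem ip_mul_transpose_le (B V : Matrix (Fin n) (Fin n) ℝ) (ρ : ℝ)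
    (hB : ∀ v : Fin n → ℝ, (B *ᵥ v) ⬝ᵥ (B *ᵥ v) ≤ ρ ^ 2 * (v ⬝ᵥ v)) :
    ip (V * Bᵀ) (V * Bᵀ) ≤ ρ ^ 2 * ip V V := by
  unfold ip
  rw [Finset.mul_sum]
  refine Finset.sum_le_sum fun i _ => ?_
  have h := hB (V i)
  simp only [dotProduct] at h
  refine le_trans (le_of_eq ?_) h
  refine Finset.sum_congr rfl fun j _ => ?_
  have : (V * Bᵀ) i j = (B *ᵥ V i) j := by
    rw [Matrix.mul_apply, Matrix.mulVec, dotProduct]
    exact Finset.sum_congr rfl fun _ _ => by rw [Matrix.transpose_apply, mul_comm]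
  rw [this]

theorem ip_transpose (A B : Matrix (Fin n) (Fin n) ℝ) : ip Aᵀ Bᵀ = ip A B := by
  unfold ip
  rw [Finset.sum_comm]
  rfl

theorem ip_transpose_mul_le (B V : Matrix (Fin n) (Fin n) ℝ) (ρ : ℝ)
    (hB : ∀ v : Fin n → ℝ, (B *ᵥ v) ⬝ᵥ (B *ᵥ v) ≤ ρ ^ 2 * (v ⬝ᵥ v)) :
    ip (Bᵀ * V) (Bᵀ * V) ≤ ρ ^ 2 * ip V V := by
  have h := ip_mul_transpose_le Bᵀ Vᵀ ρ (transpose_bound B ρ hB)
  rw [Matrix.transpose_transpose] at h
  rw [← ip_transpose (Bᵀ * V), Matrix.transpose_mul, Matrix.transpose_transpose]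
  rw [ip_transpose] at h
  exact h

theorem comm_bound (A V : Matrix (Fin n) (Fin n) ℝ) (c ρ : ℝ) (hA : Opb A c ρ) :
    ip (Aᵀ * V - V * Aᵀ) (Aᵀ * V - V * Aᵀ) ≤ (2 * ρ) ^ 2 * ip V V := by
  set B := A - c • (1 : Matrix (Fin n) (Fin n) ℝ) with hBdef
  have hB : ∀ v : Fin n → ℝ, (B *ᵥ v) ⬝ᵥ (B *ᵥ v) ≤ ρ ^ 2 * (v ⬝ᵥ v) := by
    intro v
    have : B *ᵥ v = A *ᵥ v - c • v := by
      rw [hBdef, Matrix.sub_mulVec, Matrix.smul_mulVec, Matrix.one_mulVec]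
    rw [this]; exact hA v
  have e : Aᵀ * V - V * Aᵀ = Bᵀ * V - V * Bᵀ := by
    rw [hBdef, Matrix.transpose_sub, Matrix.transpose_smul, Matrix.transpose_one,
      Matrix.sub_mul, Matrix.mul_sub, Matrix.smul_mul, Matrix.mul_smul, Matrix.one_mul,
      Matrix.mul_one]
    abel
  rw [e]
  have h1 := ip_transpose_mul_le B V ρ hB
  have h2 := ip_mul_transpose_le B V ρ hB
  have h3 : 0 ≤ ip (Bᵀ * V + V * Bᵀ) (Bᵀ * V + V * Bᵀ) := ip_self_nonneg _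
  rw [ip_add_left, ip_add_right, ip_add_right, ip_comm (V * Bᵀ) (Bᵀ * V)] at h3
  rw [ip_sub_left, ip_sub_right, ip_sub_right, ip_comm (V * Bᵀ) (Bᵀ * V)]
  nlinarith

/-- matrices as Euclidean vectors -/
noncomputable def toF (A : Matrix (Fin n) (Fin n) ℝ) : EuclideanSpace ℝ (Fin n × Fin n) :=
  WithLp.toLp 2 fun p => A p.1 p.2

theorem norm_toF_sq (A : Matrix (Fin n) (Fin n) ℝ) : ‖toF A‖ ^ 2 = ip A A := by
  rw [EuclideanSpace.norm_sq_eq, Fintype.sum_prod_type]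
  unfold ip
  refine Finset.sum_congr rfl fun i _ => Finset.sum_congr rfl fun j _ => ?_
  have : toF A (i, j) = A i j := rfl
  rw [this, Real.norm_eq_abs, sq_abs, sq]

theorem toF_sum (W : Fin r → Matrix (Fin n) (Fin n) ℝ) : toF (∑ l, W l) = ∑ l, toF (W l) := by
  ext p
  have h1 : toF (∑ l, W l) p = (∑ l, W l) p.1 p.2 := rfl
  rw [h1, Matrix.sum_apply]
  simp [toF]

/-- Upper frame bound. -/
theorem frame_upper (X V : Tup r n) (c ρ : Fin r → ℝ) (hρ : ∀ l, 0 ≤ ρ l)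
    (hX : ∀ l, Opb (mt X l) (c l) (ρ l)) {R2 : ℝ} (hR : ∑ l, ρ l ^ 2 ≤ R2) :
    ∑ b, ∑ j, (inner ℝ (Gen b j X) V) ^ 2 ≤ 16 * R2 * ‖V‖ ^ 2 := by
  set W : Fin r → Matrix (Fin n) (Fin n) ℝ := fun l => (mt X l)ᵀ * mt V l - mt V l * (mt X l)ᵀ
    with hW
  -- the inner product
  have e1 : ∀ b j : Fin n, inner ℝ (Gen b j X) V = (∑ l, W l) b j - (∑ l, W l) j b := by
    intro b j
    rw [inner_eq, Matrix.sum_apply, Matrix.sum_apply, ← Finset.sum_sub_distrib]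
    refine Finset.sum_congr rfl fun l _ => ?_
    rw [mt_Gen, ip_sub_left]
    have h1 : ip (mt X l * Em j (ev b)) (mt V l)
        = ((mt X l)ᵀ * mt V l) b j - ((mt X l)ᵀ * mt V l) j b := by
      unfold ip
      rw [Matrix.mul_apply, Matrix.mul_apply, ← Finset.sum_sub_distrib]
      refine Finset.sum_congr rfl fun x _ => ?_
      have h2 : ∀ y, (mt X l * Em j (ev b)) x y * mt V l x y
          = (mt X l x b * mt V l x y) * dl y j - (mt X l x j * mt V l x y) * dl y b := by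
        intro y; rw [mul_Em]; ring
      simp only [h2]
      rw [Finset.sum_sub_distrib, sum_dl j (fun y => mt X l x b * mt V l x y),
        sum_dl b (fun y => mt X l x j * mt V l x y)]
      rfl
    have h3 : ip (Em j (ev b) * mt X l) (mt V l)
        = (mt V l * (mt X l)ᵀ) b j - (mt V l * (mt X l)ᵀ) j b := by
      unfold ip
      rw [Finset.sum_comm, Matrix.mul_apply, Matrix.mul_apply, ← Finset.sum_sub_distrib]
      refine Finset.sum_congr rfl fun y _ => ?_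
      have h2 : ∀ x, (Em j (ev b) * mt X l) x y * mt V l x y
          = (mt X l j y * mt V l x y) * dl x b - (mt X l b y * mt V l x y) * dl x j := by
        intro x; rw [Em_mul]; ring
      simp only [h2]
      rw [Finset.sum_sub_distrib, sum_dl b (fun x => mt X l j y * mt V l x y),
        sum_dl j (fun x => mt X l b y * mt V l x y), Matrix.transpose_apply,
        Matrix.transpose_apply]
      ring
    rw [h1, h3, hW]
    simp only [Matrix.sub_apply]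
    ring
  have e2 : ∑ b, ∑ j, (inner ℝ (Gen b j X) V) ^ 2 ≤ 4 * ip (∑ l, W l) (∑ l, W l) := by
    set S := ∑ l, W l with hS
    have h4 : ∀ b j : Fin n, (inner ℝ (Gen b j X) V) ^ 2 ≤ 2 * (S b j * S b j) + 2 * (S j b * S j b) := by
      intro b j
      rw [e1]
      nlinarith [sq_nonneg (S b j + S j b)]
    calc ∑ b, ∑ j, (inner ℝ (Gen b j X) V) ^ 2
        ≤ ∑ b, ∑ j, (2 * (S b j * S b j) + 2 * (S j b * S j b)) :=
          Finset.sum_le_sum fun b _ => Finset.sum_le_sum fun j _ => h4 b j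
      _ = 4 * ip S S := by
          simp only [Finset.sum_add_distrib, ← Finset.mul_sum]
          rw [Finset.sum_comm (f := fun b j => S j b * S j b)]
          unfold ip
          ring
  have e3 : ip (∑ l, W l) (∑ l, W l) ≤ 4 * R2 * ‖V‖ ^ 2 := by
    rw [← norm_toF_sq, toF_sum]
    have h5 : ‖∑ l, toF (W l)‖ ≤ ∑ l, (2 * ρ l) * ‖toF (mt V l)‖ := by
      refine (norm_sum_le _ _).trans (Finset.sum_le_sum fun l _ => ?_)
      have h6 := comm_bound (mt X l) (mt V l) (c l) (ρ l) (hX l)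
      rw [← norm_toF_sq, ← norm_toF_sq, ← mul_pow] at h6
      exact (pow_le_pow_iff_left₀ (norm_nonneg _)
        (mul_nonneg (mul_nonneg zero_le_two (hρ l)) (norm_nonneg _)) two_ne_zero).1 h6
    have h7 : (∑ l, (2 * ρ l) * ‖toF (mt V l)‖) ^ 2
        ≤ (∑ l, (2 * ρ l) ^ 2) * ∑ l, ‖toF (mt V l)‖ ^ 2 :=
      Finset.sum_mul_sq_le_sq_mul_sq _ _ _
    have h8 : ∑ l, ‖toF (mt V l)‖ ^ 2 = ‖V‖ ^ 2 := by
      rw [norm_sq_eq]; exact Finset.sum_congr rfl fun _ _ => norm_toF_sq _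
    have h9 : ∑ l, (2 * ρ l) ^ 2 = 4 * ∑ l, ρ l ^ 2 := by
      rw [Finset.mul_sum]; exact Finset.sum_congr rfl fun _ _ => by ring
    rw [h8, h9] at h7
    calc ‖∑ l, toF (W l)‖ ^ 2 ≤ (∑ l, (2 * ρ l) * ‖toF (mt V l)‖) ^ 2 :=
          pow_le_pow_left₀ (norm_nonneg _) h5 2
      _ ≤ _ := h7
      _ ≤ 4 * R2 * ‖V‖ ^ 2 := by
          refine mul_le_mul_of_nonneg_right ?_ (sq_nonneg _)
          linarith
  calc _ ≤ _ := e2
    _ ≤ 4 * (4 * R2 * ‖V‖ ^ 2) := by linarith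
    _ = _ := by ring

end Pool.Agent.H46.Cj
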