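import Mathlib

/-!
Deterministic facts: a linear map which almost preserves every line is close to a scalar; nets on
the unit sphere.
-/

set_option autoImplicit false
set_option linter.unusedSectionVars false

open MeasureTheory Module Metric
open scoped ENNReal

namespace Pool.Agent.H46.Cj

section lin

variable {V : Type*} [NormedAddCommGroup V] [InnerProductSpace ℝ V]

/-- the component of `A u` orthogonal to the unit vector `u` -/
noncomputable def Zc (A : V →ₗ[ℝ] V) (u : V) : V := A u - (inner ℝ u (A u)) • u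

variable (A : V →ₗ[ℝ] V) (s : ℝ)

theorem inner_Zc (u z : V) (hz : inner ℝ z u = 0) : inner ℝ z (A u) = inner ℝ z (Zc A u) := by
  rw [Zc, inner_sub_right, inner_smul_right, hz, mul_zero, sub_zero]

theorem off_le (hs : ∀ u : V, ‖u‖ = 1 → ‖Zc A u‖ ≤ s) (u z : V) (hu : ‖u‖ = 1)
    (hz : inner ℝ z u = 0) : |inner ℝ z (A u)| ≤ s * ‖z‖ := by
  rw [inner_Zc A u z hz]
  refine (abs_real_inner_le_norm _ _).trans ?_
  rw [mul_comm]
  exact mul_le_mul_of_nonneg_right (hs u hu) (norm_nonneg _)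

theorem off_le' (hs : ∀ u : V, ‖u‖ = 1 → ‖Zc A u‖ ≤ s) (u z : V) (hu : ‖u‖ = 1)
    (hz : inner ℝ z u = 0) : |inner ℝ u (A z)| ≤ s * ‖z‖ := by
  by_cases h0 : z = 0
  · simp [h0]
  have hzn : 0 < ‖z‖ := norm_pos_iff.2 h0
  have h1 : ‖(‖z‖⁻¹ • z)‖ = 1 := by
    rw [norm_smul, norm_inv, norm_norm, inv_mul_cancel₀ hzn.ne']
  have h2 := off_le A s hs (‖z‖⁻¹ • z) u h1 (by rw [inner_smul_right, real_inner_comm, hz, mul_zero])
  rw [map_smul, inner_smul_right, abs_mul, abs_inv, abs_norm, hu, mul_one,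
    inv_mul_le_iff₀ hzn] at h2
  linarith

theorem diag_le (hs : ∀ u : V, ‖u‖ = 1 → ‖Zc A u‖ ≤ s) (u w : V) (hu : ‖u‖ = 1) (hw : ‖w‖ = 1)
    (huw : inner ℝ w u = 0) : |inner ℝ w (A w) - inner ℝ u (A u)| ≤ 2 * s := by
  have hwu : inner ℝ u w = 0 := by rw [real_inner_comm, huw]
  set c : ℝ := (Real.sqrt 2)⁻¹ with hc
  have hc2 : c * c = 1 / 2 := by
    rw [hc, ← mul_inv, Real.mul_self_sqrt (by norm_num)]; norm_num
  have hnorm : ∀ x y : V, ‖x‖ = 1 → ‖y‖ = 1 → inner ℝ x y = 0 → ‖c • (x + y)‖ = 1 := by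
    intro x y hx hy hxy
    have h1 : ‖c • (x + y)‖ ^ 2 = 1 := by
      rw [← real_inner_self_eq_norm_sq, inner_smul_left, inner_smul_right, inner_add_left,
        inner_add_right, inner_add_right, real_inner_self_eq_norm_sq, real_inner_self_eq_norm_sq,
        hx, hy, hxy, real_inner_comm, hxy]
      simp only [conj_trivial]
      rw [← mul_assoc, hc2]; norm_num
    have h2 : 0 ≤ ‖c • (x + y)‖ := norm_nonneg _
    nlinarith
  have hp := hnorm u w hu hw hwu
  have hq := hnorm u (-w) hu (by rw [norm_neg, hw]) (by rw [inner_neg_right, hwu, neg_zero])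
  have hpq : inner ℝ (c • (u + -w)) (c • (u + w)) = 0 := by
    rw [inner_smul_left, inner_smul_right, inner_add_left, inner_add_right, inner_add_right,
      inner_neg_left, inner_neg_left, real_inner_self_eq_norm_sq, real_inner_self_eq_norm_sq,
      hu, hw, hwu, huw]
    simp
  have h1 := off_le A s hs _ _ hp hpq
  have h2 := off_le' A s hs _ _ hp hpq
  rw [hq, mul_one] at h1 h2
  have e1 : inner ℝ (c • (u + -w)) (A (c • (u + w)))
      = 1 / 2 * (inner ℝ u (A u) + inner ℝ u (A w) - inner ℝ w (A u) - inner ℝ w (A w)) := by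
    rw [map_smul, inner_smul_left, inner_smul_right, map_add, inner_add_left, inner_add_right,
      inner_add_right, inner_neg_left, inner_neg_left]
    simp only [conj_trivial]
    rw [← mul_assoc, hc2]; ring
  have e2 : inner ℝ (c • (u + w)) (A (c • (u + -w)))
      = 1 / 2 * (inner ℝ u (A u) - inner ℝ u (A w) + inner ℝ w (A u) - inner ℝ w (A w)) := by
    rw [map_smul, inner_smul_left, inner_smul_right, map_add, map_neg, inner_add_left,
      inner_add_right, inner_add_right, inner_neg_right, inner_neg_right]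
    simp only [conj_trivial]
    rw [← mul_assoc, hc2]; ring
  rw [e1] at h1
  rw [e2] at h2
  rw [abs_le] at *
  constructor <;> linarith [h1.1, h1.2, h2.1, h2.2]

theorem diag_le' (hs : ∀ u : V, ‖u‖ = 1 → ‖Zc A u‖ ≤ s) (u z : V) (hu : ‖u‖ = 1)
    (hz : inner ℝ z u = 0) :
    |inner ℝ z (A z) - inner ℝ u (A u) * ‖z‖ ^ 2| ≤ 2 * s * ‖z‖ ^ 2 := by
  by_cases h0 : z = 0
  · simp [h0]
  have hzn : 0 < ‖z‖ := norm_pos_iff.2 h0
  have h1 : ‖(‖z‖⁻¹ • z)‖ = 1 := by
    rw [norm_smul, norm_inv, norm_norm, inv_mul_cancel₀ hzn.ne']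
  have h2 := diag_le A s hs u (‖z‖⁻¹ • z) hu h1 (by rw [inner_smul_left, hz, mul_zero])
  rw [map_smul, inner_smul_left, inner_smul_right, conj_trivial] at h2
  have e : inner ℝ z (A z) - inner ℝ u (A u) * ‖z‖ ^ 2
      = ‖z‖ ^ 2 * (‖z‖⁻¹ * (‖z‖⁻¹ * inner ℝ z (A z)) - inner ℝ u (A u)) := by
    field_simp
  rw [e, abs_mul, abs_of_pos (by positivity : (0:ℝ) < ‖z‖ ^ 2)]
  nlinarith [h2, (by positivity : (0:ℝ) < ‖z‖ ^ 2)]

/-- closeness to a scalar -/
theorem near_scalar (hs : ∀ u : V, ‖u‖ = 1 → ‖Zc A u‖ ≤ s) (u w : V) (hu : ‖u‖ = 1) :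
    ‖A w - (inner ℝ u (A u)) • w‖ ≤ 4 * s * ‖w‖ := by
  have hs0 : 0 ≤ s := (norm_nonneg _).trans (hs u hu)
  -- unit vectors first
  have key : ∀ w : V, ‖w‖ = 1 → ‖A w - (inner ℝ u (A u)) • w‖ ≤ 4 * s := by
    intro w hw
    set a := inner ℝ u (A u) with ha
    set α := inner ℝ u w with hα
    set z := w - α • u with hz
    have hzu : inner ℝ z u = 0 := by
      rw [hz, inner_sub_left, inner_smul_left, real_inner_self_eq_norm_sq, hu, conj_trivial,
        real_inner_comm, ← hα]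
      ring
    have hwz : w = α • u + z := by rw [hz]; abel
    have hnz : ‖z‖ ^ 2 = 1 - α ^ 2 := by
      rw [hz, norm_sub_sq_real, hw, norm_smul, hu, inner_smul_right, real_inner_comm, ← hα]
      simp only [mul_one, Real.norm_eq_abs, sq_abs]
      ring
    have huz : inner ℝ u z = 0 := by rw [real_inner_comm, hzu]
    -- `⟪w, A w⟫`
    have e1 : inner ℝ w (A w) - a = α * (inner ℝ u (A z) + inner ℝ z (A u))
        + (inner ℝ z (A z) - a * ‖z‖ ^ 2) := by
      have : inner ℝ w (A w) = α * α * a + α * (inner ℝ u (A z) + inner ℝ z (A u))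
          + inner ℝ z (A z) := by
        rw [hwz, map_add, map_smul, inner_add_left, inner_add_right, inner_add_right,
          inner_smul_left, inner_smul_left, inner_smul_right, inner_smul_right, conj_trivial]
        ring
      rw [this, hnz]; ring
    have b1 := off_le A s hs u z hu hzu
    have b2 := off_le' A s hs u z hu hzu
    have b3 := diag_le' A s hs u z hu hzu
    have hz1 : ‖z‖ ^ 2 ≤ 1 := by rw [hnz]; nlinarith [sq_nonneg α]
    have hαz : |α| * ‖z‖ ≤ 1 / 2 := by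
      nlinarith [sq_nonneg (|α| - ‖z‖), sq_abs α]
    have e2 : |inner ℝ w (A w) - a| ≤ 3 * s := by
      rw [e1]
      refine (abs_add_le _ _).trans ?_
      rw [abs_mul]
      have : |inner ℝ u (A z) + inner ℝ z (A u)| ≤ 2 * s * ‖z‖ := by
        refine (abs_add_le _ _).trans ?_; linarith
      have h3 : |α| * |inner ℝ u (A z) + inner ℝ z (A u)| ≤ |α| * (2 * s * ‖z‖) :=
        mul_le_mul_of_nonneg_left this (abs_nonneg _)
      have h4 : |α| * (2 * s * ‖z‖) = 2 * s * (|α| * ‖z‖) := by ring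
      have h5 : 2 * s * (|α| * ‖z‖) ≤ 2 * s * (1 / 2) :=
        mul_le_mul_of_nonneg_left hαz (by positivity)
      have h6 : 2 * s * ‖z‖ ^ 2 ≤ 2 * s * 1 := mul_le_mul_of_nonneg_left hz1 (by positivity)
      linarith
    have e3 : A w - a • w = Zc A w + (inner ℝ w (A w) - a) • w := by
      rw [Zc, sub_smul]; abel
    have horth : inner ℝ (Zc A w) ((inner ℝ w (A w) - a) • w) = 0 := by
      rw [inner_smul_right, Zc, inner_sub_left, inner_smul_left, real_inner_self_eq_norm_sq, hw,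
        conj_trivial, real_inner_comm]
      ring
    have e4 : ‖A w - a • w‖ ^ 2 ≤ (4 * s) ^ 2 := by
      rw [e3, norm_add_sq_real, horth, norm_smul, hw, mul_one, Real.norm_eq_abs, sq_abs]
      have h7 := hs w hw
      have h8 : ‖Zc A w‖ ^ 2 ≤ s ^ 2 := pow_le_pow_left₀ (norm_nonneg _) h7 2
      have h9 : (inner ℝ w (A w) - a) ^ 2 ≤ (3 * s) ^ 2 := by
        rw [← sq_abs]
        exact pow_le_pow_left₀ (abs_nonneg _) e2 2
      nlinarith
    exact (pow_le_pow_iff_left₀ (norm_nonneg _) (by positivity) two_ne_zero).1 e4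
  by_cases h0 : w = 0
  · simp [h0]
  have hwn : 0 < ‖w‖ := norm_pos_iff.2 h0
  have h1 : ‖(‖w‖⁻¹ • w)‖ = 1 := by
    rw [norm_smul, norm_inv, norm_norm, inv_mul_cancel₀ hwn.ne']
  have h2 := key _ h1
  rw [map_smul, smul_comm, ← smul_sub, norm_smul, norm_inv, norm_norm, inv_mul_le_iff₀ hwn] at h2
  linarith

theorem Zc_sub_smul (a : ℝ) (u : V) (hu : ‖u‖ = 1) : ‖Zc A u‖ ≤ ‖A u - a • u‖ := by
  have e3 : A u - a • u = Zc A u + (inner ℝ u (A u) - a) • u := by
    rw [Zc, sub_smul]; abel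
  have horth : inner ℝ (Zc A u) ((inner ℝ u (A u) - a) • u) = 0 := by
    rw [inner_smul_right, Zc, inner_sub_left, inner_smul_left, real_inner_self_eq_norm_sq, hu,
      conj_trivial, real_inner_comm]
    ring
  have e4 : ‖Zc A u‖ ^ 2 ≤ ‖A u - a • u‖ ^ 2 := by
    rw [e3, norm_add_sq_real, horth]
    nlinarith [sq_nonneg ‖(inner ℝ u (A u) - a) • u‖]
  exact (pow_le_pow_iff_left₀ (norm_nonneg _) (norm_nonneg _) two_ne_zero).1 e4

/-- Control on a net of the sphere controls the whole sphere. -/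
theorem net_control [FiniteDimensional ℝ V] (N : Set V) (hN : ∀ u ∈ N, ‖u‖ = 1)
    (hnet : ∀ v : V, ‖v‖ = 1 → ∃ u ∈ N, ‖v - u‖ ≤ 1 / 8) (m : ℝ) (hm : ∀ u ∈ N, ‖Zc A u‖ ≤ m)
    (v : V) (hv : ‖v‖ = 1) : ‖Zc A v‖ ≤ 2 * m := by
  -- boundedness
  set T : Set ℝ := (fun u => ‖Zc A u‖) '' {u : V | ‖u‖ = 1} with hT
  have hb : BddAbove T := by
    have hA : Continuous A := A.continuous_of_finiteDimensional
    have hc : Continuous fun u => ‖Zc A u‖ := by
      unfold Zc
      fun_prop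
    have hK : IsCompact {u : V | ‖u‖ = 1} := by
      have : {u : V | ‖u‖ = 1} = sphere (0 : V) 1 := by ext; simp
      rw [this]; exact isCompact_sphere _ _
    exact (hK.image hc).bddAbove
  set s := sSup T with hs
  have hsb : ∀ u : V, ‖u‖ = 1 → ‖Zc A u‖ ≤ s := fun u hu => le_csSup hb ⟨u, hu, rfl⟩
  have hs0 : 0 ≤ s := (norm_nonneg _).trans (hsb v hv)
  have hle : s ≤ m + s / 2 := by
    refine csSup_le ⟨_, v, hv, rfl⟩ ?_
    rintro _ ⟨w, hw, rfl⟩
    obtain ⟨u, huN, huw⟩ := hnet w hw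
    have hu := hN u huN
    set a := inner ℝ u (A u) with ha
    have h1 := Zc_sub_smul A a w hw
    have h2 : A w - a • w = Zc A u + (A (w - u) - a • (w - u)) := by
      rw [Zc, map_sub, smul_sub]; abel
    have h3 := near_scalar A s hsb u (w - u) hu
    calc ‖Zc A w‖ ≤ ‖A w - a • w‖ := h1
      _ ≤ ‖Zc A u‖ + ‖A (w - u) - a • (w - u)‖ := by rw [h2]; exact norm_add_le _ _
      _ ≤ m + 4 * s * (1 / 8) := by
          refine add_le_add (hm u huN) (h3.trans ?_)
          exact mul_le_mul_of_nonneg_left huw (by positivity)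
      _ = m + s / 2 := by ring
  have := hsb v hv
  linarith

end lin

section net

variable {V : Type*} [NormedAddCommGroup V] [NormedSpace ℝ V] [FiniteDimensional ℝ V]

theorem card_le_of_sep (s : Finset V) (hs : ∀ c ∈ s, ‖c‖ ≤ 1)
    (h : ∀ c ∈ s, ∀ d ∈ s, c ≠ d → 1 / 8 ≤ ‖c - d‖) : s.card ≤ 17 ^ finrank ℝ V := by
  borelize V
  let μ : Measure V := Measure.addHaar
  let δ : ℝ := (1 : ℝ) / 16
  let ρ : ℝ := (17 : ℝ) / 16
  have ρpos : 0 < ρ := by norm_num
  set A := ⋃ c ∈ s, ball (c : V) δ with hA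
  have D : Set.Pairwise (s : Set V) (Function.onFun Disjoint fun c => ball (c : V) δ) := by
    rintro c hc d hd hcd
    apply ball_disjoint_ball
    rw [dist_eq_norm]
    have e : δ + δ = 1 / 8 := by norm_num [δ]
    rw [e]
    exact h c hc d hd hcd
  have A_subset : A ⊆ ball (0 : V) ρ := by
    refine Set.iUnion₂_subset fun x hx => ?_
    apply ball_subset_ball'
    calc
      δ + dist x 0 ≤ δ + 1 := by rw [dist_zero_right]; exact add_le_add le_rfl (hs x hx)
      _ = 17 / 16 := by norm_num [δ]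
  have I :
    (s.card : ℝ≥0∞) * ENNReal.ofReal (δ ^ finrank ℝ V) * μ (ball 0 1) ≤
      ENNReal.ofReal (ρ ^ finrank ℝ V) * μ (ball 0 1) :=
    calc
      (s.card : ℝ≥0∞) * ENNReal.ofReal (δ ^ finrank ℝ V) * μ (ball 0 1) = μ A := by
        rw [hA, measure_biUnion_finset D fun c _ => measurableSet_ball]
        have I : 0 < δ := by norm_num [δ]
        simp only [μ.addHaar_ball_of_pos _ I]
        simp only [Finset.sum_const, nsmul_eq_mul, mul_assoc]
      _ ≤ μ (ball (0 : V) ρ) := measure_mono A_subset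
      _ = ENNReal.ofReal (ρ ^ finrank ℝ V) * μ (ball 0 1) := by
        simp only [μ.addHaar_ball_of_pos _ ρpos]
  have J : (s.card : ℝ≥0∞) * ENNReal.ofReal (δ ^ finrank ℝ V) ≤ ENNReal.ofReal (ρ ^ finrank ℝ V) :=
    (ENNReal.mul_le_mul_iff_left (measure_ball_pos _ _ zero_lt_one).ne' measure_ball_lt_top.ne).1 I
  have K : (s.card : ℝ) ≤ (17 : ℝ) ^ finrank ℝ V := by
    have := ENNReal.toReal_le_of_le_ofReal (pow_nonneg ρpos.le _) J
    rw [ENNReal.toReal_mul, ENNReal.toReal_natCast,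
      ENNReal.toReal_ofReal (by positivity : (0:ℝ) ≤ δ ^ finrank ℝ V)] at this
    have e : ρ = 17 * δ := by norm_num [δ, ρ]
    rw [e, mul_pow] at this
    have hp : (0:ℝ) < δ ^ finrank ℝ V := by positivity
    exact le_of_mul_le_mul_right this hp
  exact mod_cast K

/-- nets of the unit sphere. -/
theorem exists_net (V : Type*) [NormedAddCommGroup V] [NormedSpace ℝ V]
    [FiniteDimensional ℝ V] :
    ∃ N : Finset V, (∀ u ∈ N, ‖u‖ = 1) ∧ N.card ≤ 17 ^ finrank ℝ V ∧
      ∀ v : V, ‖v‖ = 1 → ∃ u ∈ N, ‖v - u‖ ≤ 1 / 8 := by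
  classical
  let P : ℕ → Prop := fun c => ∃ N : Finset V, (∀ u ∈ N, ‖u‖ = 1) ∧
    (∀ c ∈ N, ∀ d ∈ N, c ≠ d → 1 / 8 ≤ ‖c - d‖) ∧ N.card = c
  have hP0 : P 0 := ⟨∅, by simp, by simp, rfl⟩
  have hPb : ∀ c, P c → c ≤ 17 ^ finrank ℝ V := by
    rintro c ⟨N, h1, h2, rfl⟩
    exact card_le_of_sep N (fun u hu => (h1 u hu).le) h2
  set c0 := Nat.findGreatest P (17 ^ finrank ℝ V) with hc0
  have hPc : P c0 := Nat.findGreatest_spec (P := P) (Nat.zero_le _) hP0
  obtain ⟨N, h1, h2, h3⟩ := hPc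
  refine ⟨N, h1, by rw [h3]; exact Nat.findGreatest_le _, fun v hv => ?_⟩
  by_contra hcon
  push Not at hcon
  have hvN : v ∉ N := by
    intro h
    have := hcon v h
    simp at this
    norm_num at this
  have hP1 : P (c0 + 1) := by
    refine ⟨insert v N, ?_, ?_, by rw [Finset.card_insert_of_notMem hvN, h3]⟩
    · intro u hu
      rcases Finset.mem_insert.1 hu with rfl | hu
      · exact hv
      · exact h1 u hu
    · intro c hc d hd hcd
      rcases Finset.mem_insert.1 hc with rfl | hc'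
      · rcases Finset.mem_insert.1 hd with rfl | hd'
        · exact absurd rfl hcd
        · exact (hcon d hd').le
      · rcases Finset.mem_insert.1 hd with rfl | hd'
        · rw [norm_sub_rev]; exact (hcon c hc').le
        · exact h2 c hc' d hd' hcd
  have h4 := hPb _ hP1
  have h5 := Nat.le_findGreatest (P := P) h4 hP1
  omega

end net

end Pool.Agent.H46.Cj
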