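import Pool.Agent.H69.KLS.TailExp
import Pool.Agent.H46.Cj.ConjRep
import Pool.Agent.H46.Cj.Geo

/-!
Moments of equivariant images, without the coisometry assumption.
-/

set_option autoImplicit false
set_option linter.unusedSectionVars false
set_option linter.unusedSimpArgs false

open MeasureTheory Measure Set TopologicalSpace Matrix
open scoped ENNReal

namespace Pool.Agent.H46.Cj

open Pool.Agent.H69.KLS (exists_SO orthLI orthLI_apply one_row)

section gen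

variable {E : Type*} [NormedAddCommGroup E] [InnerProductSpace ℝ E]
    [FiniteDimensional ℝ E] [MeasurableSpace E] [BorelSpace E] {k : ℕ}

/-- the adjoint of an equivariant map multiplies norms by a constant -/
theorem adjoint_scale (T : E →ₗ[ℝ] EuclideanSpace ℝ (Fin k)) (hk : 2 ≤ k)
    (hinv : ∀ A : Matrix (Fin k) (Fin k) ℝ, A * Aᵀ = 1 → A.det = 1 →
      ∃ U : E ≃ₗᵢ[ℝ] E, ∀ z, T (U z) = WithLp.toLp 2 (A *ᵥ (T z).ofLp)) :
    ∃ τ : ℝ, 0 ≤ τ ∧ ∀ x, ‖LinearMap.adjoint T x‖ = τ * ‖x‖ := by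
  set e : EuclideanSpace ℝ (Fin k) := EuclideanSpace.single ⟨0, by omega⟩ 1 with he
  have hen : ‖e‖ = 1 := by rw [he, PiLp.norm_single]; simp
  have key : ∀ x y : EuclideanSpace ℝ (Fin k), ‖x‖ = ‖y‖ →
      ‖LinearMap.adjoint T x‖ = ‖LinearMap.adjoint T y‖ := by
    intro x y hxy
    obtain ⟨A, hA, hdet, hAx⟩ := exists_SO hk x y hxy
    obtain ⟨U, hTU⟩ := hinv A hA hdet
    have h1 : LinearMap.adjoint T y = U (LinearMap.adjoint T x) := by
      refine ext_inner_right ℝ fun z => ?_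
      obtain ⟨z', rfl⟩ := U.surjective z
      rw [LinearMap.adjoint_inner_left, hTU, U.inner_map_map, LinearMap.adjoint_inner_left,
        ← orthLI_apply A hA]
      have h2 : y = orthLI A hA x := by rw [orthLI_apply, hAx]
      rw [h2, (orthLI A hA).inner_map_map]
    rw [h1, U.norm_map]
  refine ⟨‖LinearMap.adjoint T e‖, norm_nonneg _, fun x => ?_⟩
  have h1 := key x (‖x‖ • e) (by rw [norm_smul, hen, norm_norm, mul_one])
  rw [h1, map_smul, norm_smul, norm_norm, mul_comm]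

/-- Moments of one equivariant image. -/
theorem one_row_gen (T : E →ₗ[ℝ] EuclideanSpace ℝ (Fin k)) (hk : 2 ≤ k) {K : Set E}
    (hKm : MeasurableSet K) (hKc : Convex ℝ K) (hKb : Bornology.IsBounded K)
    (hinv : ∀ A : Matrix (Fin k) (Fin k) ℝ, A * Aᵀ = 1 → A.det = 1 →
      ∃ U : E ≃ₗᵢ[ℝ] E, (∀ z ∈ K, U z ∈ K) ∧ ∀ z, T (U z) = WithLp.toLp 2 (A *ᵥ (T z).ofLp))
    {r : ℝ} (hr : 0 < r) (htail : 4 * volume {z ∈ K | r < ‖T z‖} ≤ volume K)
    {q : ℕ} (hq : k ≤ q) :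
    ∫⁻ z in K, ENNReal.ofReal (‖T z‖ ^ q) ≤
      ENNReal.ofReal ((129 * (q / k) * r) ^ q) * volume K := by
  obtain ⟨τ, hτ0, hτ⟩ := adjoint_scale T hk (fun A hA hd => by
    obtain ⟨U, _, hU⟩ := hinv A hA hd
    exact ⟨U, hU⟩)
  have hq0 : q ≠ 0 := by omega
  rcases hτ0.eq_or_lt with h0 | hτpos
  · -- T = 0
    have hT : ∀ z, T z = 0 := by
      intro z
      refine ext_inner_left ℝ fun x => ?_
      rw [← LinearMap.adjoint_inner_left, inner_zero_right]
      have : LinearMap.adjoint T x = 0 := by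
        rw [← norm_eq_zero, hτ, ← h0, zero_mul]
      rw [this, inner_zero_left]
    simp [hT, hq0]
  · set S : EuclideanSpace ℝ (Fin k) →ₗᵢ[ℝ] E :=
      { toLinearMap := τ⁻¹ • LinearMap.adjoint T
        norm_map' := fun x => by
          show ‖τ⁻¹ • LinearMap.adjoint T x‖ = ‖x‖
          rw [norm_smul, hτ, Real.norm_of_nonneg (inv_nonneg.2 hτ0), ← mul_assoc,
            inv_mul_cancel₀ hτpos.ne', one_mul] } with hS
    set T' : E →ₗ[ℝ] EuclideanSpace ℝ (Fin k) := τ⁻¹ • T with hT'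
    have hT'n : ∀ z, ‖T' z‖ = τ⁻¹ * ‖T z‖ := by
      intro z
      rw [hT', LinearMap.smul_apply, norm_smul, Real.norm_of_nonneg (inv_nonneg.2 hτ0)]
    have hST : ∀ x z, inner ℝ (S x) z = inner ℝ x (T' z) := by
      intro x z
      show inner ℝ (τ⁻¹ • LinearMap.adjoint T x) z = inner ℝ x (τ⁻¹ • T z)
      rw [inner_smul_left, inner_smul_right, LinearMap.adjoint_inner_left, conj_trivial]
    have hset : {z ∈ K | r / τ < ‖T' z‖} = {z ∈ K | r < ‖T z‖} := by
      ext z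
      have : r / τ < ‖T' z‖ ↔ r < ‖T z‖ := by
        rw [hT'n, div_lt_iff₀ hτpos, mul_comm τ⁻¹, mul_assoc, inv_mul_cancel₀ hτpos.ne', mul_one]
      simp only [mem_ofPred_eq, this]
    have h1 := one_row S T' hST hk hKm hKc hKb (by
      intro x y hxy
      obtain ⟨A, hA, hdet, hAx⟩ := exists_SO hk x y hxy
      obtain ⟨U, hU, hTU⟩ := hinv A hA hdet
      refine ⟨U, hU, orthLI A hA, ?_, fun z => ?_⟩
      · rw [orthLI_apply, hAx]
      · show τ⁻¹ • T (U z) = orthLI A hA (τ⁻¹ • T z)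
        rw [map_smul, orthLI_apply, hTU]) (r := r / τ) (div_pos hr hτpos)
      (by rw [hset]; exact htail) hq
    have h2 : ∀ z, ENNReal.ofReal (‖T z‖ ^ q)
        = ENNReal.ofReal (τ ^ q) * ENNReal.ofReal (‖T' z‖ ^ q) := by
      intro z
      rw [← ENNReal.ofReal_mul (by positivity), hT'n, ← mul_pow, ← mul_assoc,
        mul_inv_cancel₀ hτpos.ne', one_mul]
    simp only [h2]
    rw [lintegral_const_mul' _ _ ENNReal.ofReal_ne_top]
    calc ENNReal.ofReal (τ ^ q) * ∫⁻ z in K, ENNReal.ofReal (‖T' z‖ ^ q)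
        ≤ ENNReal.ofReal (τ ^ q) * (ENNReal.ofReal ((129 * (q / k) * (r / τ)) ^ q) * volume K) :=
          mul_le_mul' le_rfl h1
      _ = _ := by
          rw [← mul_assoc, ← ENNReal.ofReal_mul (by positivity), ← mul_pow]
          congr 3
          field_simp

end gen

/-! ### Matrices as linear maps of `ℝ^n` -/

variable {r n k : ℕ}

/-- the linear map given by a matrix -/
noncomputable def ap (A : Matrix (Fin n) (Fin n) ℝ) :
    EuclideanSpace ℝ (Fin n) →ₗ[ℝ] EuclideanSpace ℝ (Fin n) where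
  toFun v := WithLp.toLp 2 (A *ᵥ v.ofLp)
  map_add' x y := by
    rw [WithLp.ofLp_add, Matrix.mulVec_add]; rfl
  map_smul' c x := by
    rw [WithLp.ofLp_smul, Matrix.mulVec_smul]; rfl

theorem ap_apply (A : Matrix (Fin n) (Fin n) ℝ) (v : EuclideanSpace ℝ (Fin n)) :
    ap A v = WithLp.toLp 2 (A *ᵥ v.ofLp) := rfl

theorem inner_eq_dot (u v : EuclideanSpace ℝ (Fin n)) : inner ℝ u v = u.ofLp ⬝ᵥ v.ofLp := by
  simp only [PiLp.inner_apply, RCLike.inner_apply, conj_trivial, dotProduct]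
  exact Finset.sum_congr rfl fun _ _ => mul_comm _ _

theorem norm_sq_dot (u : EuclideanSpace ℝ (Fin n)) : ‖u‖ ^ 2 = u.ofLp ⬝ᵥ u.ofLp := by
  rw [← real_inner_self_eq_norm_sq, inner_eq_dot]

theorem opb_of_Zc (A : Matrix (Fin n) (Fin n) ℝ) (s : ℝ)
    (hs : ∀ u : EuclideanSpace ℝ (Fin n), ‖u‖ = 1 → ‖Zc (ap A) u‖ ≤ s)
    (u : EuclideanSpace ℝ (Fin n)) (hu : ‖u‖ = 1) :
    Opb A (inner ℝ u (ap A u)) (4 * s) := by
  intro v
  have h := near_scalar (ap A) s hs u (WithLp.toLp 2 v) hu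
  have h2 := pow_le_pow_left₀ (norm_nonneg _) h 2
  rw [mul_pow, norm_sq_dot, norm_sq_dot] at h2
  exact h2

/-- conjugation moves the vector -/
theorem norm_Zc_conj {O : Matrix (Fin n) (Fin n) ℝ} (hO : O * Oᵀ = 1)
    (A : Matrix (Fin n) (Fin n) ℝ) (u : EuclideanSpace ℝ (Fin n)) :
    ‖Zc (ap (Oᵀ * A * O)) u‖ = ‖Zc (ap A) (WithLp.toLp 2 (O *ᵥ u.ofLp))‖ := by
  have hOT : Oᵀ * Oᵀᵀ = 1 := by rw [Matrix.transpose_transpose]; exact mul_eq_one_comm.mp hO
  rw [← (orthLI Oᵀ hOT).norm_map (Zc (ap A) (WithLp.toLp 2 (O *ᵥ u.ofLp)))]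
  congr 1
  have h1 : inner ℝ (WithLp.toLp 2 (O *ᵥ u.ofLp) : EuclideanSpace ℝ (Fin n))
      (ap A (WithLp.toLp 2 (O *ᵥ u.ofLp))) = inner ℝ u (ap (Oᵀ * A * O) u) := by
    rw [inner_eq_dot, inner_eq_dot, ap_apply, ap_apply]
    simp only
    rw [← Matrix.mulVec_mulVec, ← Matrix.mulVec_mulVec, Matrix.mulVec_transpose,
      dotProduct_comm u.ofLp, ← Matrix.dotProduct_mulVec, dotProduct_comm]
  unfold Zc
  rw [h1, map_sub, map_smul]
  congr 1
  · rw [orthLI_apply, ap_apply, ap_apply]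
    simp only [Matrix.mulVec_mulVec, Matrix.mul_assoc]
  · congr 1
    rw [orthLI_apply]
    simp only [Matrix.mulVec_mulVec]
    rw [mul_eq_one_comm.mp hO, Matrix.one_mulVec]

end Pool.Agent.H46.Cj
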