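import Pool.Agent.H46.Cj.TruncVol
import Pool.Agent.H97.KlsRepMain
import Pool.Agent.H84.KlsClass

/-!
The Poincaré inequality for the truncated body.
-/

set_option autoImplicit false
set_option linter.unusedSectionVars false
set_option linter.unusedSimpArgs false

open MeasureTheory Measure Set TopologicalSpace Matrix
open scoped ENNReal

namespace Pool.Agent.H46.Cj

open Pool.H97.KLS (OG mul_transpose_self)
open Pool.H97.KLSR (Rep)
open Pool.Agent.H84 (CB PC)

variable {r n k : ℕ}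

variable {E : Type*} [NormedAddCommGroup E] [InnerProductSpace ℝ E] [FiniteDimensional ℝ E]
variable [MeasurableSpace E] [BorelSpace E]

theorem Kt_PC {φ : E →ₗᵢ[ℝ] Tup r (k + 1)} (hk : 2 ≤ k) (hr : 0 < r) (hφ : InvRange φ)
    {K : Set E} {R0 : ℝ} (hK : CB K R0) (hKi : (conjRep hφ).InvSet K)
    {s : ℝ} (hs : 0 < s)
    (hS : ∀ v : E, ∫ x in K, (inner ℝ v x) ^ 2 ≤ s ^ 2 * ‖v‖ ^ 2 * volume.real K) :
    ∃ K' : Set E, K' ⊆ K ∧ Convex ℝ K' ∧ MeasurableSet K' ∧
      3 / 4 * volume.real K ≤ volume.real K' ∧ PC K' (1700000 * Real.sqrt r * s) := by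
  have hk0 : (0 : ℝ) < k := by exact_mod_cast (by omega : 0 < k)
  have hk2 : (2 : ℝ) ≤ k := by exact_mod_cast hk
  have hr0 : (0 : ℝ) < r := by exact_mod_cast hr
  have hsk : 0 < Real.sqrt k := Real.sqrt_pos.2 hk0
  have hsr : 0 < Real.sqrt r := Real.sqrt_pos.2 hr0
  have hKb : Bornology.IsBounded K := Metric.isBounded_closedBall.subset hK.sub
  have hvol := Kt_volume hk hr hφ hK.meas hK.conv hKb hKi hs hS
  set τ : ℝ := Real.sqrt (8 * r) * s with hτ
  set R : ℝ := 6 * Real.sqrt r * (6579 * s * Real.sqrt k) with hR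
  set K' := Kt φ K τ R with hK'
  have hKv : 0 < volume.real K := ENNReal.toReal_pos hK.vol0 hK.lt_top.ne
  have hK'v : volume K' ≠ 0 := by
    intro h
    have : volume.real K' = 0 := by rw [Measure.real, h, ENNReal.toReal_zero]
    linarith
  have hCB : CB K' R0 := ⟨Kt_convex φ hK.conv τ R, Kt_measurable φ hK.meas τ R,
    (Kt_sub φ K τ R).trans hK.sub, hK'v⟩
  refine ⟨K', Kt_sub φ K τ R, hCB.conv, hCB.meas, hvol, ?_⟩
  have hτ0 : 0 < τ := by positivity
  have hR0 : 0 < R := by positivity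
  have hc0 : (0:ℝ) < 4 * (((k + 1 : ℕ) : ℝ) - 2) := by push_cast; linarith
  have key := Pool.H97.KLSR.rep_poincare_fixed (conjRep hφ) (by omega) hCB (Kt_inv hφ hKi τ R)
    (LinearMap.toContinuousLinearMap (trP.comp φ.toLinearMap)) (by
      intro O hO x
      show trP (φ ((conjRep hφ).act O x)) = trP (φ x)
      rw [conjRep_act hφ O hO, trP_conj (mul_transpose_self O)])
    (c := 4 * (((k + 1 : ℕ) : ℝ) - 2)) (M := 256 * R ^ 2) (s := τ) hc0 (by positivity) hτ0
    (fun w => conjRep_casimir hφ (Nat.succ_pos k) w)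
    (fun X hX v => Kt_frame hφ K τ R X hX v)
    (fun x hx => hx.2.1)
  refine key.mono (Real.sqrt_nonneg _) ?_
  rw [Real.sqrt_le_iff]
  refine ⟨by positivity, ?_⟩
  have hR2 : R ^ 2 = 36 * 6579 ^ 2 * (r * s ^ 2) * k := by
    rw [hR, mul_pow (6 * Real.sqrt r), mul_pow 6 (Real.sqrt r), Real.sq_sqrt hr0.le,
      mul_pow (6579 * s), Real.sq_sqrt hk0.le]; ring
  have hτ2 : τ ^ 2 = 8 * (r * s ^ 2) := by
    rw [hτ, mul_pow, Real.sq_sqrt (by positivity)]; ring
  have hY : (1700000 * Real.sqrt r * s) ^ 2 = 1700000 ^ 2 * (r * s ^ 2) := by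
    rw [mul_pow, mul_pow, Real.sq_sqrt hr0.le]; ring
  rw [hY, hτ2, hR2]
  set y := (r : ℝ) * s ^ 2 with hy
  have hy0 : 0 < y := by positivity
  have h1 : 256 * (36 * 6579 ^ 2 * y * k) / (((k + 1 : ℕ) : ℝ)) ≤ 256 * (36 * 6579 ^ 2 * y) := by
    rw [div_le_iff₀ (by positivity)]
    push_cast
    nlinarith
  have h2 : 256 * (36 * 6579 ^ 2 * y * k) / (4 * (((k + 1 : ℕ) : ℝ) - 2))
      ≤ 128 * (36 * 6579 ^ 2 * y) := by
    rw [div_le_iff₀ hc0]
    push_cast
    nlinarith
  nlinarith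

/-- the trivial representation -/
noncomputable def trivRep (ι : Type*) [Fintype ι] [DecidableEq ι] (E : Type*)
    [NormedAddCommGroup E] [InnerProductSpace ℝ E] : Rep ι E where
  act _ := ContinuousLinearMap.id ℝ E
  gen _ _ := 0
  act_mul A B _ X := rfl
  act_one X := rfl
  norm_act O _ X := rfl
  cont := continuous_const
  gen_diag a := rfl
  der j w _ _ Y θ := by
    simp only [ContinuousLinearMap.id_apply, _root_.zero_apply, smul_zero,
      Finset.sum_const_zero]
    exact hasDerivAt_const θ Y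

/-- Poincaré inequality for small bodies -/
theorem small_PC {K : Set E} {R0 : ℝ} (hK : CB K R0) {t : ℝ} (ht : 0 < t)
    (hKt : ∀ x ∈ K, ‖x‖ ≤ t) : PC K (4 * t) := by
  have key := Pool.H97.KLSR.rep_poincare_fixed (trivRep (Fin 1) E) le_rfl hK
    (fun O hO X hX => hX) (ContinuousLinearMap.id ℝ E) (fun O hO x => rfl)
    (c := 1) (M := t ^ 2) (s := t) one_pos (by positivity) ht
    (fun w => by simp [trivRep])
    (fun X hX v => by
      have h0 : ∀ b j : Fin 1, inner ℝ ((trivRep (Fin 1) E).gen b j X) v = 0 := fun b j => by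
        simp [trivRep]
      simp only [h0]
      simp only [ne_eq, OfNat.ofNat_ne_zero, not_false_eq_true, zero_pow, Finset.sum_const_zero]
      positivity)
    (fun x hx => hKt x hx)
  refine key.mono (Real.sqrt_nonneg _) ?_
  rw [Real.sqrt_le_iff]
  refine ⟨by positivity, ?_⟩
  push_cast
  nlinarith [sq_nonneg t]

/-- truncation in small dimension -/
theorem low_PC {K : Set E} {R0 : ℝ} (hK : CB K R0) {m s : ℝ} (hm : 0 < m)
    (hdim : (Module.finrank ℝ E : ℝ) ≤ 4 * m)
    (hs : 0 < s)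
    (hS : ∀ v : E, ∫ x in K, (inner ℝ v x) ^ 2 ≤ s ^ 2 * ‖v‖ ^ 2 * volume.real K) :
    ∃ K' : Set E, K' ⊆ K ∧ Convex ℝ K' ∧ MeasurableSet K' ∧
      3 / 4 * volume.real K ≤ volume.real K' ∧ PC K' (32 * Real.sqrt m * s) := by
  have hKb : Bornology.IsBounded K := Metric.isBounded_closedBall.subset hK.sub
  have hKv : 0 < volume.real K := ENNReal.toReal_pos hK.vol0 hK.lt_top.ne
  have hVt : volume K ≠ ⊤ := hK.lt_top.ne
  set t : ℝ := 8 * Real.sqrt m * s with ht
  have hsm : 0 < Real.sqrt m := Real.sqrt_pos.2 hm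
  have ht0 : 0 < t := by positivity
  have hsec : ∫ x in K, ‖x‖ ^ 2 ≤ 4 * m * s ^ 2 * volume.real K := by
    set b := stdOrthonormalBasis ℝ E
    have h1 : ∀ x : E, ‖x‖ ^ 2 = ∑ i, (inner ℝ (b i) x) ^ 2 := by
      intro x
      rw [← b.sum_sq_norm_inner_right x]
      exact Finset.sum_congr rfl fun i _ => by rw [Real.norm_eq_abs, sq_abs]
    simp only [h1]
    rw [integral_finsetSum _ fun i _ => integrableOn_of_cont hKb (by fun_prop)]
    calc ∑ i, ∫ x in K, (inner ℝ (b i) x) ^ 2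
        ≤ ∑ _i : Fin (Module.finrank ℝ E), s ^ 2 * volume.real K := by
          refine Finset.sum_le_sum fun i _ => (hS _).trans ?_
          rw [b.orthonormal.1 i]; simp
      _ = Module.finrank ℝ E * (s ^ 2 * volume.real K) := by
          rw [Finset.sum_const, Finset.card_univ, Fintype.card_fin, nsmul_eq_mul]
      _ ≤ 4 * m * (s ^ 2 * volume.real K) :=
          mul_le_mul_of_nonneg_right hdim (by positivity)
      _ = _ := by ring
  have hlin := Pool.Agent.H69.KLS.lintegral_le_of_integral_le hKb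
    (f := fun x => ‖x‖ ^ 2) (by fun_prop)
    (fun x => by positivity) (c := 4 * m * s ^ 2) (by positivity) hsec
  have hB := markov hK.meas (g := fun x => ENNReal.ofReal (‖x‖ ^ 2))
    (by fun_prop) (b := 4 * m * s ^ 2) (by positivity) hlin
  set B := {x ∈ K | ENNReal.ofReal (8 * (4 * m * s ^ 2)) ≤ ENNReal.ofReal (‖x‖ ^ 2)} with hBd
  set K' := K ∩ Metric.closedBall 0 t with hK'
  have hcov : K ⊆ K' ∪ B := by
    intro x hx
    by_cases h1 : x ∈ B
    · exact Or.inr h1
    refine Or.inl ⟨hx, ?_⟩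
    rw [Metric.mem_closedBall, dist_zero_right]
    have h3 : ‖x‖ ^ 2 ≤ 8 * (4 * m * s ^ 2) := by
      by_contra hcon
      exact h1 ⟨hx, ENNReal.ofReal_le_ofReal (not_le.1 hcon).le⟩
    refine (pow_le_pow_iff_left₀ (norm_nonneg _) (by positivity) two_ne_zero).1 ?_
    rw [ht, mul_pow, mul_pow, Real.sq_sqrt hm.le]
    nlinarith [mul_pos hm (pow_pos hs 2)]
  have hmv : volume K ≤ volume K' + volume B :=
    (measure_mono hcov).trans (measure_union_le _ _)
  have hfin : ∀ s : Set E, s ⊆ K → volume s ≠ ⊤ := fun s hs => (measure_mono hs).trans_lt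
    (lt_top_iff_ne_top.2 hVt) |>.ne
  have f0 := hfin K' inter_subset_left
  have f1 := hfin B (fun x hx => hx.1)
  have hm' : volume.real K ≤ volume.real K' + volume.real B := by
    have := ENNReal.toReal_mono (ENNReal.add_ne_top.2 ⟨f0, f1⟩) hmv
    rwa [ENNReal.toReal_add f0 f1] at this
  have g1 : 8 * volume.real B ≤ volume.real K := by
    have := ENNReal.toReal_mono hVt hB
    rwa [ENNReal.toReal_mul] at this
  have hvol : 3 / 4 * volume.real K ≤ volume.real K' := by linarith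
  have hK'v : volume K' ≠ 0 := by
    intro h
    have : volume.real K' = 0 := by rw [Measure.real, h, ENNReal.toReal_zero]
    linarith
  have hCB : CB K' R0 := ⟨hK.conv.inter (convex_closedBall _ _),
    hK.meas.inter Metric.isClosed_closedBall.measurableSet, inter_subset_left.trans hK.sub, hK'v⟩
  refine ⟨K', inter_subset_left, hCB.conv, hCB.meas, hvol, ?_⟩
  have := small_PC hCB ht0 (fun x hx => by simpa using hx.2)
  have e : 4 * t = 32 * Real.sqrt m * s := by rw [ht]; ring
  rwa [e] at this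

end Pool.Agent.H46.Cj
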