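import Pool.Agent.H46.Cj.Mom

/-!
Moments of the off-diagonal part.
-/

set_option autoImplicit false
set_option linter.unusedSectionVars false
set_option linter.unusedSimpArgs false

open MeasureTheory Measure Set TopologicalSpace Matrix
open scoped ENNReal

namespace Pool.Agent.H46.Cj

open Pool.Agent.H69.KLS (exists_SO orthLI orthLI_apply)
open Pool.H97.KLS (OG mul_transpose_self)

variable {r n k : ℕ}

/-- block matrix `diag(1, B)` -/
def ext1 (B : Matrix (Fin k) (Fin k) ℝ) : Matrix (Fin (k + 1)) (Fin (k + 1)) ℝ :=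
  Matrix.of fun i j => Fin.cases (Fin.cases 1 (fun _ => 0) j) (fun i' => Fin.cases 0 (fun j' => B i' j') j) i

@[simp] theorem ext1_zero_zero (B : Matrix (Fin k) (Fin k) ℝ) : ext1 B 0 0 = 1 := rfl
@[simp] theorem ext1_zero_succ (B : Matrix (Fin k) (Fin k) ℝ) (j : Fin k) :
    ext1 B 0 j.succ = 0 := rfl
@[simp] theorem ext1_succ_zero (B : Matrix (Fin k) (Fin k) ℝ) (i : Fin k) :
    ext1 B i.succ 0 = 0 := rfl
@[simp] theorem ext1_succ_succ (B : Matrix (Fin k) (Fin k) ℝ) (i j : Fin k) :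
    ext1 B i.succ j.succ = B i j := rfl

theorem ext1_orth {B : Matrix (Fin k) (Fin k) ℝ} (hB : B * Bᵀ = 1) :
    ext1 B * (ext1 B)ᵀ = 1 := by
  ext i j
  rw [Matrix.mul_apply, Fin.sum_univ_succ]
  refine Fin.cases ?_ (fun i' => ?_) i
  · refine Fin.cases ?_ (fun j' => ?_) j
    · simp
    · simp only [Matrix.transpose_apply, ext1_zero_zero, ext1_zero_succ, ext1_succ_zero, one_mul,
        zero_mul, Finset.sum_const_zero, add_zero]
      rw [Matrix.one_apply_ne (Fin.succ_ne_zero j').symm]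
  · refine Fin.cases ?_ (fun j' => ?_) j
    · simp only [Matrix.transpose_apply, ext1_zero_zero, ext1_zero_succ, ext1_succ_zero,
        mul_zero, zero_mul, Finset.sum_const_zero, add_zero]
      rw [Matrix.one_apply_ne (Fin.succ_ne_zero i')]
    · simp only [Matrix.transpose_apply, ext1_succ_zero, ext1_succ_succ, mul_zero, zero_add]
      have h := congrFun (congrFun hB i') j'
      rw [Matrix.mul_apply] at h
      simp only [Matrix.transpose_apply] at h
      rw [h, Matrix.one_apply, Matrix.one_apply]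
      simp [Fin.succ_inj]

theorem ext1_det (B : Matrix (Fin k) (Fin k) ℝ) : (ext1 B).det = B.det := by
  rw [Matrix.det_succ_column_zero, Fin.sum_univ_succ]
  simp only [ext1_zero_zero, ext1_succ_zero, mul_zero, zero_mul, Finset.sum_const_zero, add_zero,
    Fin.val_zero, pow_zero, one_mul]
  congr 1

/-- first basis vector -/
noncomputable def e0 : EuclideanSpace ℝ (Fin (k + 1)) := EuclideanSpace.single 0 1

theorem norm_e0 : ‖(e0 : EuclideanSpace ℝ (Fin (k + 1)))‖ = 1 := by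
  rw [e0, PiLp.norm_single]; simp

theorem mulVec_e0 (A : Matrix (Fin (k + 1)) (Fin (k + 1)) ℝ) (i : Fin (k + 1)) :
    (A *ᵥ (e0 : EuclideanSpace ℝ (Fin (k + 1))).ofLp) i = A i 0 := by
  rw [Matrix.mulVec, dotProduct, Finset.sum_eq_single 0]
  · simp [e0]
  · intro b _ hb; simp [e0, hb]
  · intro h; exact absurd (Finset.mem_univ _) h

theorem norm_Zc_e0 (A : Matrix (Fin (k + 1)) (Fin (k + 1)) ℝ) :
    ‖Zc (ap A) e0‖ ^ 2 = ∑ i : Fin k, A i.succ 0 ^ 2 := by
  have h0 : inner ℝ (e0 : EuclideanSpace ℝ (Fin (k + 1))) (ap A e0) = A 0 0 := by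
    rw [e0, EuclideanSpace.inner_single_left]
    simp only [map_one, one_mul]
    exact mulVec_e0 A 0
  rw [EuclideanSpace.norm_sq_eq, Fin.sum_univ_succ]
  have hz : ∀ i, (Zc (ap A) e0) i = A i 0 - A 0 0 * (e0 : EuclideanSpace ℝ (Fin (k + 1))) i := by
    intro i
    unfold Zc
    rw [h0, PiLp.sub_apply, PiLp.smul_apply, smul_eq_mul]
    congr 1
    exact mulVec_e0 A i
  have h1 : (Zc (ap A) e0) 0 = 0 := by
    rw [hz]; simp [e0]
  have h2 : ∀ i : Fin k, (Zc (ap A) e0) i.succ = A i.succ 0 := by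
    intro i
    rw [hz]; simp [e0, Fin.succ_ne_zero]
  rw [h1]
  simp only [h2, norm_zero, Real.norm_eq_abs, sq_abs]
  ring

section col

variable {E : Type*} [NormedAddCommGroup E] [InnerProductSpace ℝ E] [FiniteDimensional ℝ E]

/-- the entries below the corner in the first column of the `l`-th matrix -/
noncomputable def Tcol (φ : E →ₗᵢ[ℝ] Tup r (k + 1)) (l : Fin r) :
    E →ₗ[ℝ] EuclideanSpace ℝ (Fin k) where
  toFun x := WithLp.toLp 2 fun i => φ x (l, i.succ, 0)
  map_add' x y := by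
    ext i; simp
  map_smul' c x := by
    ext i; simp

theorem Tcol_apply (φ : E →ₗᵢ[ℝ] Tup r (k + 1)) (l : Fin r) (x : E) (i : Fin k) :
    Tcol φ l x i = mt (φ x) l i.succ 0 := rfl

theorem norm_Tcol (φ : E →ₗᵢ[ℝ] Tup r (k + 1)) (l : Fin r) (x : E) :
    ‖Tcol φ l x‖ = ‖Zc (ap (mt (φ x) l)) e0‖ := by
  rw [← sq_eq_sq₀ (norm_nonneg _) (norm_nonneg _), norm_Zc_e0, EuclideanSpace.norm_sq_eq]
  refine Finset.sum_congr rfl fun i _ => ?_
  rw [Tcol_apply, Real.norm_eq_abs, sq_abs]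

variable {φ : E →ₗᵢ[ℝ] Tup r (k + 1)}

theorem Tcol_inv (hφ : InvRange φ) (l : Fin r) (A : Matrix (Fin k) (Fin k) ℝ) (hA : A * Aᵀ = 1)
    (hd : A.det = 1) : ∃ (O : OG (Fin (k + 1))) (hO : O.1.det = 1),
      ∀ z, Tcol φ l ((conjRep hφ).li O hO z) = WithLp.toLp 2 (A *ᵥ (Tcol φ l z).ofLp) := by
  have hAT : Aᵀ * Aᵀᵀ = 1 := by rw [Matrix.transpose_transpose]; exact mul_eq_one_comm.mp hA
  have hOd : (ext1 Aᵀ).det = 1 := by rw [ext1_det, Matrix.det_transpose, hd]
  set O : OG (Fin (k + 1)) := ⟨ext1 Aᵀ, Pool.H97.KLS.mem_of _ (ext1_orth hAT)⟩ with hO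
  have hOd' : O.1.det = 1 := hOd
  refine ⟨O, hOd', fun z => ?_⟩
  · ext i
    rw [Tcol_apply]
    have h1 : φ ((conjRep hφ).li O hOd' z) = conj (ext1 Aᵀ) (φ z) := conjRep_act hφ O hOd' z
    rw [h1, mt_conj, Matrix.mul_assoc, Matrix.mul_apply, Fin.sum_univ_succ]
    have h2 : ∀ a, (mt (φ z) l * ext1 Aᵀ) a 0 = mt (φ z) l a 0 := by
      intro a
      rw [Matrix.mul_apply, Fin.sum_univ_succ]
      simp
    simp only [h2, Matrix.transpose_apply, ext1_zero_succ, zero_mul, zero_add, ext1_succ_succ]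
    rfl

variable [MeasurableSpace E] [BorelSpace E]

theorem integrableOn_of_cont {K : Set E} (hKb : Bornology.IsBounded K) {f : E → ℝ}
    (hf : Continuous f) : IntegrableOn f K :=
  (hf.continuousOn.integrableOn_compact hKb.isCompact_closure).mono_set subset_closure

theorem second_moment_col (φ : E →ₗᵢ[ℝ] Tup r (k + 1)) {K : Set E} (hKb : Bornology.IsBounded K)
    {s : ℝ} (hS : ∀ v : E, ∫ x in K, (inner ℝ v x) ^ 2 ≤ s ^ 2 * ‖v‖ ^ 2 * volume.real K)
    (l : Fin r) : ∫ x in K, ‖Tcol φ l x‖ ^ 2 ≤ k * s ^ 2 * volume.real K := by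
  have h1 : ∀ x, ‖Tcol φ l x‖ ^ 2
      = ∑ i : Fin k, (inner ℝ (adj φ (EuclideanSpace.single (l, i.succ, 0) 1)) x) ^ 2 := by
    intro x
    rw [EuclideanSpace.norm_sq_eq]
    refine Finset.sum_congr rfl fun i _ => ?_
    rw [inner_adj, EuclideanSpace.inner_single_left, Real.norm_eq_abs, sq_abs]
    simp only [map_one, one_mul]
    rfl
  simp only [h1]
  rw [integral_finsetSum _ fun i _ => integrableOn_of_cont hKb (by fun_prop)]
  calc ∑ i : Fin k, ∫ x in K, (inner ℝ (adj φ (EuclideanSpace.single (l, i.succ, 0) 1)) x) ^ 2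
      ≤ ∑ _i : Fin k, s ^ 2 * volume.real K := by
        refine Finset.sum_le_sum fun i _ => (hS _).trans ?_
        have h2 : ‖adj φ (EuclideanSpace.single (l, i.succ, 0) 1)‖ ^ 2 ≤ 1 := by
          have := norm_adj_le φ (EuclideanSpace.single (l, i.succ, 0) 1)
          rw [PiLp.norm_single, norm_one] at this
          exact pow_le_one₀ (norm_nonneg _) this
        have h3 : 0 ≤ volume.real K := measureReal_nonneg
        have h4 : s ^ 2 * ‖adj φ (EuclideanSpace.single (l, i.succ, 0) 1)‖ ^ 2 ≤ s ^ 2 * 1 :=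
          mul_le_mul_of_nonneg_left h2 (sq_nonneg _)
        nlinarith
    _ = k * s ^ 2 * volume.real K := by
        rw [Finset.sum_const, Finset.card_univ, Fintype.card_fin, nsmul_eq_mul]; ring

/-- moments of the component orthogonal to a unit vector -/
theorem moment_Zc (hk : 2 ≤ k) (hφ : InvRange φ) {K : Set E} (hKm : MeasurableSet K)
    (hKc : Convex ℝ K) (hKb : Bornology.IsBounded K) (hKi : (conjRep hφ).InvSet K)
    {s : ℝ} (hs : 0 < s)
    (hS : ∀ v : E, ∫ x in K, (inner ℝ v x) ^ 2 ≤ s ^ 2 * ‖v‖ ^ 2 * volume.real K)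
    (l : Fin r) (u : EuclideanSpace ℝ (Fin (k + 1))) (hu : ‖u‖ = 1) :
    ∫⁻ x in K, ENNReal.ofReal (‖Zc (ap (mt (φ x) l)) u‖ ^ (k + 1)) ≤
      ENNReal.ofReal ((387 * s * Real.sqrt k) ^ (k + 1)) * volume K := by
  have hk0 : (0 : ℝ) < k := by exact_mod_cast (by omega : 0 < k)
  have hk2 : (2 : ℝ) ≤ k := by exact_mod_cast hk
  have hsk : 0 < Real.sqrt k := Real.sqrt_pos.2 hk0
  -- reduce to `e0`
  obtain ⟨O, hO, hOd, hOu⟩ := exists_SO (by omega : 2 ≤ k + 1) e0 u (by rw [norm_e0, hu])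
  set O' : OG (Fin (k + 1)) := ⟨O, Pool.H97.KLS.mem_of _ hO⟩ with hO'
  have hOd' : O'.1.det = 1 := hOd
  set U := (conjRep hφ).li O' hOd' with hU
  have h1 : ∀ x, ‖Zc (ap (mt (φ x) l)) u‖ = ‖Tcol φ l (U x)‖ := by
    intro x
    rw [norm_Tcol]
    have h2 : φ (U x) = conj O (φ x) := conjRep_act hφ O' hOd' x
    rw [h2, mt_conj, norm_Zc_conj hO, hOu]
  simp only [h1]
  have hmp : MeasurePreserving U := U.measurePreserving
  have hme : MeasurableEmbedding U := U.toHomeomorph.measurableEmbedding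
  have h3 := hmp.setLIntegral_comp_preimage_emb hme
    (fun y => ENNReal.ofReal (‖Tcol φ l y‖ ^ (k + 1))) K
  have h4 : U ⁻¹' K = K := (conjRep hφ).preimage_li hKi O' hOd'
  rw [h4] at h3
  rw [h3]
  -- the tail
  have hTc : Continuous (Tcol φ l) := LinearMap.continuous_of_finiteDimensional _
  set q := 2 * s * Real.sqrt k with hq
  have hq0 : 0 < q := by positivity
  have htail : 4 * volume {z ∈ K | q < ‖Tcol φ l z‖} ≤ volume K := by
    have hlin := Pool.Agent.H69.KLS.lintegral_le_of_integral_le hKb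
      (f := fun x => ‖Tcol φ l x‖ ^ 2) (by fun_prop)
      (fun x => by positivity) (c := k * s ^ 2) (by positivity) (second_moment_col φ hKb hS l)
    have markov : ENNReal.ofReal (q ^ 2) * volume {z ∈ K | q < ‖Tcol φ l z‖} ≤
        ∫⁻ z in K, ENNReal.ofReal (‖Tcol φ l z‖ ^ 2) := by
      refine le_trans ?_ (mul_meas_ge_le_lintegral (μ := volume.restrict K)
        (f := fun z => ENNReal.ofReal (‖Tcol φ l z‖ ^ 2)) (by fun_prop) (ENNReal.ofReal (q ^ 2)))
      refine mul_le_mul' le_rfl ?_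
      rw [Measure.restrict_apply' hKm]
      refine measure_mono ?_
      rintro z ⟨hz, hz2⟩
      exact ⟨ENNReal.ofReal_le_ofReal (pow_le_pow_left₀ hq0.le hz2.le 2), hz⟩
    have h5 := markov.trans hlin
    have h6 : q ^ 2 = (k * s ^ 2) * 4 := by
      rw [hq, mul_pow, Real.sq_sqrt hk0.le]; ring
    rw [h6, ENNReal.ofReal_mul (by positivity), mul_assoc] at h5
    have h7 : ENNReal.ofReal 4 = 4 := by norm_num
    rw [h7] at h5
    have h8 : ENNReal.ofReal (k * s ^ 2) ≠ 0 := by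
      rw [ne_eq, ENNReal.ofReal_eq_zero, not_le]; positivity
    exact (ENNReal.mul_le_mul_iff_right h8 ENNReal.ofReal_ne_top).1 h5
  have h9 := one_row_gen (Tcol φ l) hk hKm hKc hKb (by
    intro A hA hd
    obtain ⟨O, hO, h⟩ := Tcol_inv hφ l A hA hd
    exact ⟨(conjRep hφ).li O hO, fun z hz => hKi O hO z hz, h⟩) hq0 htail
    (q := k + 1) (by omega)
  refine h9.trans (mul_le_mul' (ENNReal.ofReal_le_ofReal ?_) le_rfl)
  refine pow_le_pow_left₀ (by positivity) ?_ _
  have h10 : (((k + 1 : ℕ) : ℝ) / k) ≤ 3 / 2 := by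
    rw [div_le_div_iff₀ hk0 (by norm_num)]
    push_cast
    linarith
  calc 129 * (((k + 1 : ℕ) : ℝ) / k) * q ≤ 129 * (3 / 2) * q := by gcongr
    _ = 387 * s * Real.sqrt k := by rw [hq]; ring

end col

end Pool.Agent.H46.Cj
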