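import Pool.Agent.H46.Cj.Trunc

/-!
The truncated body.
-/

set_option autoImplicit false
set_option linter.unusedSectionVars false
set_option linter.unusedSimpArgs false

open MeasureTheory Measure Set TopologicalSpace Matrix
open scoped ENNReal

namespace Pool.Agent.H46.Cj

open Pool.Agent.H69.KLS (exists_SO orthLI orthLI_apply)
open Pool.H97.KLS (OG mul_transpose_self)

variable {r n k : ℕ}

theorem ap_add (A B : Matrix (Fin n) (Fin n) ℝ) (v : EuclideanSpace ℝ (Fin n)) :
    ap (A + B) v = ap A v + ap B v := by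
  rw [ap_apply, ap_apply, ap_apply, Matrix.add_mulVec]; rfl

theorem ap_smul (c : ℝ) (A : Matrix (Fin n) (Fin n) ℝ) (v : EuclideanSpace ℝ (Fin n)) :
    ap (c • A) v = c • ap A v := by
  rw [ap_apply, ap_apply, Matrix.smul_mulVec]; rfl

theorem Zc_add (A B : Matrix (Fin n) (Fin n) ℝ) (v : EuclideanSpace ℝ (Fin n)) :
    Zc (ap (A + B)) v = Zc (ap A) v + Zc (ap B) v := by
  unfold Zc
  rw [ap_add, inner_add_right, add_smul]; abel

theorem Zc_smul (c : ℝ) (A : Matrix (Fin n) (Fin n) ℝ) (v : EuclideanSpace ℝ (Fin n)) :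
    Zc (ap (c • A)) v = c • Zc (ap A) v := by
  unfold Zc
  rw [ap_smul, inner_smul_right, smul_sub, smul_smul]

section

variable {E : Type*} [NormedAddCommGroup E] [InnerProductSpace ℝ E] [FiniteDimensional ℝ E]

/-- the off-diagonal parts of the tuple at a tuple of vectors -/
noncomputable def Lv (φ : E →ₗᵢ[ℝ] Tup r n) (v : Fin r → EuclideanSpace ℝ (Fin n)) :
    E →ₗ[ℝ] PiLp 2 (fun _ : Fin r => EuclideanSpace ℝ (Fin n)) where
  toFun x := WithLp.toLp 2 fun l => Zc (ap (mt (φ x) l)) (v l)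
  map_add' x y := by
    rw [← WithLp.toLp_add]
    congr 1
    funext l
    rw [map_add, mt_add, Zc_add]; rfl
  map_smul' c x := by
    rw [RingHom.id_apply, ← WithLp.toLp_smul]
    congr 1
    funext l
    rw [map_smul, mt_smul, Zc_smul]; rfl

theorem norm_Lv_sq (φ : E →ₗᵢ[ℝ] Tup r n) (v : Fin r → EuclideanSpace ℝ (Fin n)) (x : E) :
    ‖Lv φ v x‖ ^ 2 = ∑ l, ‖Zc (ap (mt (φ x) l)) (v l)‖ ^ 2 := by
  rw [PiLp.norm_sq_eq_of_L2]
  rfl

/-- truncation -/
def Kt (φ : E →ₗᵢ[ℝ] Tup r n) (K : Set E) (τ R : ℝ) : Set E :=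
  {x | x ∈ K ∧ ‖trP (φ x)‖ ≤ τ ∧
    ∀ v : Fin r → EuclideanSpace ℝ (Fin n), (∀ l, ‖v l‖ = 1) → ‖Lv φ v x‖ ≤ R}

theorem Kt_sub (φ : E →ₗᵢ[ℝ] Tup r n) (K : Set E) (τ R : ℝ) : Kt φ K τ R ⊆ K := fun _ h => h.1

theorem Kt_eq (φ : E →ₗᵢ[ℝ] Tup r n) (K : Set E) (τ R : ℝ) :
    Kt φ K τ R = K ∩ ((trP.comp φ.toLinearMap) ⁻¹' Metric.closedBall 0 τ ∩
      ⋂ (v : Fin r → EuclideanSpace ℝ (Fin n)) (_ : ∀ l, ‖v l‖ = 1),
        (Lv φ v) ⁻¹' Metric.closedBall 0 R) := by
  ext x
  simp only [Kt, mem_ofPred_eq, mem_inter_iff, mem_preimage, mem_iInter, Metric.mem_closedBall,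
    dist_zero_right, LinearMap.comp_apply, LinearIsometry.coe_toLinearMap]

theorem Kt_convex (φ : E →ₗᵢ[ℝ] Tup r n) {K : Set E} (hK : Convex ℝ K) (τ R : ℝ) :
    Convex ℝ (Kt φ K τ R) := by
  rw [Kt_eq]
  refine hK.inter (((convex_closedBall _ _).linear_preimage _).inter ?_)
  exact convex_iInter fun v => convex_iInter fun _ => (convex_closedBall _ _).linear_preimage _

theorem Kt_measurable [MeasurableSpace E] [BorelSpace E] (φ : E →ₗᵢ[ℝ] Tup r n) {K : Set E}
    (hK : MeasurableSet K) (τ R : ℝ) : MeasurableSet (Kt φ K τ R) := by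
  rw [Kt_eq]
  refine hK.inter (IsClosed.measurableSet ?_)
  refine (Metric.isClosed_closedBall.preimage (LinearMap.continuous_of_finiteDimensional _)).inter ?_
  exact isClosed_iInter fun v => isClosed_iInter fun _ =>
    Metric.isClosed_closedBall.preimage (LinearMap.continuous_of_finiteDimensional _)

theorem Kt_inv {φ : E →ₗᵢ[ℝ] Tup r n} (hφ : InvRange φ) {K : Set E}
    (hK : (conjRep hφ).InvSet K) (τ R : ℝ) : (conjRep hφ).InvSet (Kt φ K τ R) := by
  rintro O hO x ⟨hx, htr, hv⟩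
  refine ⟨hK O hO x hx, ?_, ?_⟩
  · rw [conjRep_act hφ O hO, trP_conj (mul_transpose_self O)]; exact htr
  · intro v hv1
    have h1 := hv (fun l => WithLp.toLp 2 (O.1 *ᵥ (v l).ofLp)) (fun l => by
      have := (orthLI O.1 (mul_transpose_self O)).norm_map (v l)
      rw [orthLI_apply] at this
      rw [this, hv1])
    refine le_trans (le_of_eq ?_) h1
    rw [← sq_eq_sq₀ (norm_nonneg _) (norm_nonneg _), norm_Lv_sq, norm_Lv_sq]
    refine Finset.sum_congr rfl fun l _ => ?_
    rw [conjRep_act hφ O hO, mt_conj, norm_Zc_conj (mul_transpose_self O)]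

/-- upper frame bound on the truncated body -/
theorem Kt_frame {φ : E →ₗᵢ[ℝ] Tup r (k + 1)} (hφ : InvRange φ) (K : Set E) (τ R : ℝ)
    (x : E) (hx : x ∈ Kt φ K τ R) (v : E) :
    ∑ b, ∑ j, inner ℝ ((conjRep hφ).gen b j x) v ^ 2 ≤ 256 * R ^ 2 * ‖v‖ ^ 2 := by
  have hex : ∀ l : Fin r, ∃ w : EuclideanSpace ℝ (Fin (k + 1)), ‖w‖ = 1 ∧
      ∀ u : EuclideanSpace ℝ (Fin (k + 1)), ‖u‖ = 1 →
        ‖Zc (ap (mt (φ x) l)) u‖ ≤ ‖Zc (ap (mt (φ x) l)) w‖ := by
    intro l
    have hc : Continuous fun u => ‖Zc (ap (mt (φ x) l)) u‖ := by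
      have hA : Continuous (ap (mt (φ x) l)) := (ap (mt (φ x) l)).continuous_of_finiteDimensional
      unfold Zc
      fun_prop
    obtain ⟨w, hw, hmax⟩ := (isCompact_sphere (0 : EuclideanSpace ℝ (Fin (k + 1))) 1).exists_isMaxOn
      ⟨e0, by simp [norm_e0]⟩ hc.continuousOn
    refine ⟨w, by simpa using hw, fun u hu => ?_⟩
    exact hmax (by simpa using hu : u ∈ Metric.sphere (0 : EuclideanSpace ℝ (Fin (k + 1))) 1)
  choose w hw hmax using hex
  have h1 := hx.2.2 w hw
  have h2 : ∑ l, (4 * ‖Zc (ap (mt (φ x) l)) (w l)‖) ^ 2 ≤ 16 * R ^ 2 := by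
    have h3 := pow_le_pow_left₀ (norm_nonneg _) h1 2
    rw [norm_Lv_sq] at h3
    calc ∑ l, (4 * ‖Zc (ap (mt (φ x) l)) (w l)‖) ^ 2
        = 16 * ∑ l, ‖Zc (ap (mt (φ x) l)) (w l)‖ ^ 2 := by
          rw [Finset.mul_sum]; exact Finset.sum_congr rfl fun _ _ => by ring
      _ ≤ _ := by linarith
  have h4 := conjRep_frame hφ x v (fun l => inner ℝ e0 (ap (mt (φ x) l) e0))
    (fun l => 4 * ‖Zc (ap (mt (φ x) l)) (w l)‖) (fun l => by positivity)
    (fun l => opb_of_Zc _ _ (hmax l) e0 norm_e0) h2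
  refine h4.trans (le_of_eq (by ring))

variable [MeasurableSpace E] [BorelSpace E]

/-- the trace part has bounded second moment -/
theorem second_moment_tr {φ : E →ₗᵢ[ℝ] Tup r n} (hn : 0 < n) {K : Set E}
    (hKb : Bornology.IsBounded K)
    {s : ℝ} (hS : ∀ v : E, ∫ x in K, (inner ℝ v x) ^ 2 ≤ s ^ 2 * ‖v‖ ^ 2 * volume.real K) :
    ∫ x in K, ‖trP (φ x)‖ ^ 2 ≤ r * s ^ 2 * volume.real K := by
  -- the vectors representing the normalised traces
  set d : Fin r → Tup r n := fun l =>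
    WithLp.toLp 2 fun p => if p.1 = l ∧ p.2.1 = p.2.2 then 1 / Real.sqrt n else 0 with hd
  have hn' : (0:ℝ) < n := by exact_mod_cast hn
  have hdn : ∀ l, ‖d l‖ ^ 2 = 1 := by
    intro l
    rw [EuclideanSpace.norm_sq_eq, Fintype.sum_prod_type]
    have h1 : ∀ (l' : Fin r) (y : Fin n × Fin n), ‖d l (l', y)‖ ^ 2
        = if l' = l then (if y.1 = y.2 then 1 / (n:ℝ) else 0) else 0 := by
      intro l' y
      have : d l (l', y) = if l' = l ∧ y.1 = y.2 then 1 / Real.sqrt n else 0 := rfl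
      rw [this]
      by_cases h : l' = l <;> by_cases h' : y.1 = y.2
      · simp only [h, h', and_self, if_true]
        rw [Real.norm_eq_abs, sq_abs, div_pow, Real.sq_sqrt hn'.le, one_pow]
      all_goals simp [h, h']
    simp only [h1, Finset.sum_ite_eq', Finset.mem_univ, if_true, Finset.sum_const_zero,
      Finset.sum_ite_irrel]
    rw [Fintype.sum_prod_type]
    simp only [Finset.sum_ite_eq, Finset.mem_univ, if_true, Finset.sum_const, Finset.card_univ,
      Fintype.card_fin, nsmul_eq_mul]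
    field_simp
  have hdi : ∀ l (X : Tup r n), (trP X) l = inner ℝ (d l) X := by
    intro l X
    rw [inner_eq]
    have h1 : ∀ l', ip (mt (d l) l') (mt X l')
        = if l' = l then (mt X l).trace / Real.sqrt n else 0 := by
      intro l'
      by_cases h : l' = l
      · subst h
        simp only [if_true]
        unfold ip Matrix.trace
        rw [Finset.sum_div]
        refine Finset.sum_congr rfl fun i _ => ?_
        rw [Finset.sum_eq_single i]
        · have : mt (d l') l' i i = 1 / Real.sqrt n := by simp [hd, mt]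
          rw [this, Matrix.diag_apply]; ring
        · intro j _ hj
          have : mt (d l') l' i j = 0 := by simp [hd, mt, hj.symm]
          rw [this, zero_mul]
        · intro h; exact absurd (Finset.mem_univ i) h
      · simp only [h, if_false]
        unfold ip
        refine Finset.sum_eq_zero fun i _ => Finset.sum_eq_zero fun j _ => ?_
        have : mt (d l) l' i j = 0 := by simp [hd, mt, h]
        rw [this, zero_mul]
    simp only [h1, Finset.sum_ite_eq', Finset.mem_univ, if_true]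
    rfl
  have h1 : ∀ x, ‖trP (φ x)‖ ^ 2 = ∑ l : Fin r, (inner ℝ (adj φ (d l)) x) ^ 2 := by
    intro x
    rw [EuclideanSpace.norm_sq_eq]
    refine Finset.sum_congr rfl fun l _ => ?_
    rw [hdi, inner_adj, Real.norm_eq_abs, sq_abs]
  simp only [h1]
  rw [integral_finsetSum _ fun i _ => integrableOn_of_cont hKb (by fun_prop)]
  calc ∑ l : Fin r, ∫ x in K, (inner ℝ (adj φ (d l)) x) ^ 2
      ≤ ∑ _l : Fin r, s ^ 2 * volume.real K := by
        refine Finset.sum_le_sum fun l _ => (hS _).trans ?_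
        have h2 : ‖adj φ (d l)‖ ^ 2 ≤ 1 := by
          have := pow_le_pow_left₀ (norm_nonneg _) (norm_adj_le φ (d l)) 2
          rwa [hdn] at this
        have h3 : 0 ≤ volume.real K := measureReal_nonneg
        have h4 : s ^ 2 * ‖adj φ (d l)‖ ^ 2 ≤ s ^ 2 * 1 :=
          mul_le_mul_of_nonneg_left h2 (sq_nonneg _)
        nlinarith
    _ = r * s ^ 2 * volume.real K := by
        rw [Finset.sum_const, Finset.card_univ, Fintype.card_fin, nsmul_eq_mul]; ring

end

end Pool.Agent.H46.Cj
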