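import Pool.Agent.H46.Cj.TruncSet

/-!
Volume of the truncated body.
-/

set_option autoImplicit false
set_option linter.unusedSectionVars false
set_option linter.unusedSimpArgs false

open MeasureTheory Measure Set TopologicalSpace Matrix
open scoped ENNReal

namespace Pool.Agent.H46.Cj

open Pool.H97.KLS (OG mul_transpose_self)

variable {r n k : ℕ}

theorem sq_le_one_add_pow {t : ℝ} (ht : 0 ≤ t) {q : ℕ} (hq : 2 ≤ q) : t ^ 2 ≤ 1 + t ^ q := by
  rcases le_total t 1 with h | h
  · have h1 : t ^ 2 ≤ 1 := pow_le_one₀ ht h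
    have h2 : 0 ≤ t ^ q := pow_nonneg ht q
    linarith
  · have h1 : t ^ 2 ≤ t ^ q := pow_le_pow_right₀ h hq
    linarith

variable {E : Type*} [NormedAddCommGroup E] [InnerProductSpace ℝ E] [FiniteDimensional ℝ E]
variable [MeasurableSpace E] [BorelSpace E]

/-- Markov's inequality in the form used below -/
theorem markov {K : Set E} (hKm : MeasurableSet K) {g : E → ℝ≥0∞} (hg : Measurable g)
    {b : ℝ} (hb : 0 < b) (h : ∫⁻ x in K, g x ≤ ENNReal.ofReal b * volume K) :
    8 * volume {x ∈ K | ENNReal.ofReal (8 * b) ≤ g x} ≤ volume K := by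
  set B := {x ∈ K | ENNReal.ofReal (8 * b) ≤ g x} with hB
  have h1 : ENNReal.ofReal (8 * b) * volume B ≤ ∫⁻ x in K, g x := by
    refine le_trans ?_ (mul_meas_ge_le_lintegral (μ := volume.restrict K) hg
      (ENNReal.ofReal (8 * b)))
    refine mul_le_mul' le_rfl ?_
    rw [Measure.restrict_apply' hKm]
    refine measure_mono ?_
    rintro z ⟨hz, hz2⟩
    exact ⟨hz2, hz⟩
  have h2 := h1.trans h
  rw [mul_comm 8 b, ENNReal.ofReal_mul hb.le, mul_assoc] at h2
  have h7 : ENNReal.ofReal 8 = 8 := by norm_num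
  rw [h7] at h2
  have h8 : ENNReal.ofReal b ≠ 0 := by
    rw [ne_eq, ENNReal.ofReal_eq_zero, not_le]; exact hb
  exact (ENNReal.mul_le_mul_iff_right h8 ENNReal.ofReal_ne_top).1 h2

theorem Kt_volume {φ : E →ₗᵢ[ℝ] Tup r (k + 1)} (hk : 2 ≤ k) (hr : 0 < r) (hφ : InvRange φ)
    {K : Set E} (hKm : MeasurableSet K)
    (hKc : Convex ℝ K) (hKb : Bornology.IsBounded K) (hKi : (conjRep hφ).InvSet K)
    {s : ℝ} (hs : 0 < s)
    (hS : ∀ v : E, ∫ x in K, (inner ℝ v x) ^ 2 ≤ s ^ 2 * ‖v‖ ^ 2 * volume.real K) :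
    3 / 4 * volume.real K ≤ volume.real
      (Kt φ K (Real.sqrt (8 * r) * s) (6 * Real.sqrt r * (6579 * s * Real.sqrt k))) := by
  have hk0 : (0 : ℝ) < k := by exact_mod_cast (by omega : 0 < k)
  have hr0 : (0 : ℝ) < r := by exact_mod_cast hr
  have hsk : 0 < Real.sqrt k := Real.sqrt_pos.2 hk0
  set a : ℝ := 6579 * s * Real.sqrt k with ha
  have ha0 : 0 < a := by positivity
  obtain ⟨N, hN1, hNc, hNnet⟩ := exists_net (EuclideanSpace ℝ (Fin (k + 1)))
  rw [finrank_euclideanSpace_fin] at hNc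
  have hZc : ∀ (l : Fin r) (u : EuclideanSpace ℝ (Fin (k + 1))),
      Continuous fun x : E => Zc (ap (mt (φ x) l)) u := by
    intro l u
    let L : E →ₗ[ℝ] EuclideanSpace ℝ (Fin (k + 1)) :=
      { toFun := fun x => Zc (ap (mt (φ x) l)) u
        map_add' := fun x y => by rw [map_add, mt_add, Zc_add]
        map_smul' := fun c x => by rw [map_smul, mt_smul, Zc_smul]; rfl }
    exact L.continuous_of_finiteDimensional
  set G : E → ℝ := fun x => ∑ l : Fin r, ∑ u ∈ N, ‖Zc (ap (mt (φ x) l)) u‖ ^ (k + 1) with hG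
  have hGc : Continuous G := by
    refine continuous_finsetSum _ fun l _ => continuous_finsetSum _ fun u _ => ?_
    exact (hZc l u).norm.pow _
  have hVt : volume K ≠ ⊤ := hKb.measure_lt_top.ne
  -- the integral of `G`
  have hGi : ∫⁻ x in K, ENNReal.ofReal (G x) ≤ ENNReal.ofReal (r * a ^ (k + 1)) * volume K := by
    have e1 : ∀ x, ENNReal.ofReal (G x)
        = ∑ l : Fin r, ∑ u ∈ N, ENNReal.ofReal (‖Zc (ap (mt (φ x) l)) u‖ ^ (k + 1)) := by
      intro x
      rw [hG]
      simp only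
      rw [ENNReal.ofReal_sum_of_nonneg (fun l _ => Finset.sum_nonneg fun u _ => by positivity)]
      refine Finset.sum_congr rfl fun l _ => ?_
      rw [ENNReal.ofReal_sum_of_nonneg (fun u _ => by positivity)]
    simp only [e1]
    have hmeas : ∀ (l : Fin r) (u : EuclideanSpace ℝ (Fin (k + 1))),
        Measurable fun x : E => ENNReal.ofReal (‖Zc (ap (mt (φ x) l)) u‖ ^ (k + 1)) :=
      fun l u => (ENNReal.continuous_ofReal.comp ((hZc l u).norm.pow _)).measurable
    rw [lintegral_finsetSum _ fun l _ => Finset.measurable_fun_sum _ fun u _ => hmeas l u]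
    have e2 : ∀ l : Fin r,
        ∫⁻ x in K, ∑ u ∈ N, ENNReal.ofReal (‖Zc (ap (mt (φ x) l)) u‖ ^ (k + 1))
        ≤ ENNReal.ofReal (a ^ (k + 1)) * volume K := by
      intro l
      rw [lintegral_finsetSum _ fun u _ => hmeas l u]
      calc ∑ u ∈ N, ∫⁻ x in K, ENNReal.ofReal (‖Zc (ap (mt (φ x) l)) u‖ ^ (k + 1))
          ≤ ∑ _u ∈ N, ENNReal.ofReal ((387 * s * Real.sqrt k) ^ (k + 1)) * volume K :=
            Finset.sum_le_sum fun u hu => moment_Zc hk hφ hKm hKc hKb hKi hs hS l u (hN1 u hu)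
        _ = (N.card : ℝ≥0∞) * (ENNReal.ofReal ((387 * s * Real.sqrt k) ^ (k + 1)) * volume K) := by
            rw [Finset.sum_const, nsmul_eq_mul]
        _ ≤ ENNReal.ofReal (17 ^ (k + 1)) *
              (ENNReal.ofReal ((387 * s * Real.sqrt k) ^ (k + 1)) * volume K) := by
            refine mul_le_mul' ?_ le_rfl
            have : (N.card : ℝ≥0∞) = ENNReal.ofReal (N.card : ℝ) := by
              rw [ENNReal.ofReal_natCast]
            rw [this]
            refine ENNReal.ofReal_le_ofReal ?_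
            exact_mod_cast hNc
        _ = ENNReal.ofReal (a ^ (k + 1)) * volume K := by
            rw [← mul_assoc, ← ENNReal.ofReal_mul (by positivity), ← mul_pow, ha]
            congr 3
            ring
    calc ∑ l : Fin r, ∫⁻ x in K, ∑ u ∈ N, ENNReal.ofReal (‖Zc (ap (mt (φ x) l)) u‖ ^ (k + 1))
        ≤ ∑ _l : Fin r, ENNReal.ofReal (a ^ (k + 1)) * volume K :=
          Finset.sum_le_sum fun l _ => e2 l
      _ = (r : ℝ≥0∞) * (ENNReal.ofReal (a ^ (k + 1)) * volume K) := by
          rw [Finset.sum_const, Finset.card_univ, Fintype.card_fin, nsmul_eq_mul]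
      _ = _ := by
          rw [ENNReal.ofReal_mul hr0.le, ENNReal.ofReal_natCast, mul_assoc]
  have hB1 := markov hKm (g := fun x => ENNReal.ofReal (G x))
    (ENNReal.continuous_ofReal.comp hGc).measurable (b := r * a ^ (k + 1)) (by positivity) hGi
  -- the traces
  have hTc : Continuous fun x : E => ‖trP (φ x)‖ ^ 2 := by
    have : Continuous fun x : E => trP (φ x) :=
      (trP.comp φ.toLinearMap).continuous_of_finiteDimensional
    exact this.norm.pow 2
  have hTi : ∫⁻ x in K, ENNReal.ofReal (‖trP (φ x)‖ ^ 2) ≤ ENNReal.ofReal (r * s ^ 2) * volume K :=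
    Pool.Agent.H69.KLS.lintegral_le_of_integral_le hKb hTc
      (fun x => by positivity) (c := r * s ^ 2) (by positivity)
      (second_moment_tr (Nat.succ_pos k) hKb hS)
  have hB2 := markov hKm (g := fun x => ENNReal.ofReal (‖trP (φ x)‖ ^ 2))
    (ENNReal.continuous_ofReal.comp hTc).measurable (b := r * s ^ 2) (by positivity) hTi
  set B1 := {x ∈ K | ENNReal.ofReal (8 * (r * a ^ (k + 1))) ≤ ENNReal.ofReal (G x)} with hB1d
  set B2 := {x ∈ K | ENNReal.ofReal (8 * (r * s ^ 2)) ≤ ENNReal.ofReal (‖trP (φ x)‖ ^ 2)} with hB2d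
  set K' := Kt φ K (Real.sqrt (8 * r) * s) (6 * Real.sqrt r * a) with hK'
  have hcov : K ⊆ K' ∪ (B1 ∪ B2) := by
    intro x hx
    by_cases h1 : x ∈ B1
    · exact Or.inr (Or.inl h1)
    by_cases h2 : x ∈ B2
    · exact Or.inr (Or.inr h2)
    refine Or.inl ⟨hx, ?_, ?_⟩
    · have h3 : ‖trP (φ x)‖ ^ 2 ≤ 8 * (r * s ^ 2) := by
        by_contra hcon
        exact h2 ⟨hx, ENNReal.ofReal_le_ofReal (not_le.1 hcon).le⟩
      refine (pow_le_pow_iff_left₀ (norm_nonneg _) (by positivity) two_ne_zero).1 ?_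
      rw [mul_pow, Real.sq_sqrt (by positivity)]
      linarith
    · intro v hv
      have h3 : G x ≤ 8 * (r * a ^ (k + 1)) := by
        by_contra hcon
        exact h1 ⟨hx, ENNReal.ofReal_le_ofReal (not_le.1 hcon).le⟩
      refine (pow_le_pow_iff_left₀ (norm_nonneg _) (by positivity) two_ne_zero).1 ?_
      rw [norm_Lv_sq]
      -- bound for each `l`
      have h4 : ∀ l : Fin r, ‖Zc (ap (mt (φ x) l)) (v l)‖ ^ 2
          ≤ 4 * a ^ 2 * (1 + (∑ u ∈ N, ‖Zc (ap (mt (φ x) l)) u‖ ^ (k + 1)) / a ^ (k + 1)) := by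
        intro l
        set g := (∑ u ∈ N, ‖Zc (ap (mt (φ x) l)) u‖ ^ (k + 1)) / a ^ (k + 1) with hg
        have hg0 : 0 ≤ g := by positivity
        have h5 : ∀ u ∈ N, ‖Zc (ap (mt (φ x) l)) u‖ ≤ a * Real.sqrt (1 + g) := by
          intro u hu
          refine (pow_le_pow_iff_left₀ (norm_nonneg _) (by positivity) two_ne_zero).1 ?_
          rw [mul_pow, Real.sq_sqrt (by positivity)]
          have h6 := sq_le_one_add_pow (t := ‖Zc (ap (mt (φ x) l)) u‖ / a) (by positivity)
            (q := k + 1) (by omega)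
          have h7 : (‖Zc (ap (mt (φ x) l)) u‖ / a) ^ (k + 1) ≤ g := by
            rw [div_pow, hg]
            refine div_le_div_of_nonneg_right ?_ (by positivity)
            exact Finset.single_le_sum (f := fun u => ‖Zc (ap (mt (φ x) l)) u‖ ^ (k + 1))
              (fun u _ => by positivity) hu
          have h8 : ‖Zc (ap (mt (φ x) l)) u‖ ^ 2
              = a ^ 2 * (‖Zc (ap (mt (φ x) l)) u‖ / a) ^ 2 := by
            field_simp
          rw [h8]
          refine mul_le_mul_of_nonneg_left (h6.trans ?_) (by positivity)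
          linarith
        have h9 := net_control (ap (mt (φ x) l)) (N : Set (EuclideanSpace ℝ (Fin (k + 1))))
          (fun u hu => hN1 u hu) (fun v hv => by
            obtain ⟨u, hu, huv⟩ := hNnet v hv
            exact ⟨u, hu, huv⟩) (a * Real.sqrt (1 + g)) (fun u hu => h5 u hu) (v l) (hv l)
        have h10 := pow_le_pow_left₀ (norm_nonneg _) h9 2
        rw [mul_pow, mul_pow, Real.sq_sqrt (by positivity)] at h10
        linarith
      calc ∑ l, ‖Zc (ap (mt (φ x) l)) (v l)‖ ^ 2
          ≤ ∑ l, 4 * a ^ 2 * (1 + (∑ u ∈ N, ‖Zc (ap (mt (φ x) l)) u‖ ^ (k + 1)) / a ^ (k + 1)) :=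
            Finset.sum_le_sum fun l _ => h4 l
        _ = 4 * a ^ 2 * (r + G x / a ^ (k + 1)) := by
            rw [← Finset.mul_sum, Finset.sum_add_distrib, ← Finset.sum_div, Finset.sum_const,
              Finset.card_univ, Fintype.card_fin, nsmul_eq_mul, mul_one]
        _ ≤ 4 * a ^ 2 * (r + 8 * r) := by
            refine mul_le_mul_of_nonneg_left ?_ (by positivity)
            have : G x / a ^ (k + 1) ≤ 8 * r := by
              rw [div_le_iff₀ (by positivity)]; linarith
            linarith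
        _ = (6 * Real.sqrt r * a) ^ 2 := by
            rw [mul_pow (6 * Real.sqrt r) a, mul_pow 6 (Real.sqrt r), Real.sq_sqrt hr0.le]; ring
  have hm : volume K ≤ volume K' + (volume B1 + volume B2) :=
    (measure_mono hcov).trans ((measure_union_le _ _).trans
      (add_le_add le_rfl (measure_union_le _ _)))
  -- to reals
  have hfin : ∀ s : Set E, s ⊆ K → volume s ≠ ⊤ := fun s hs => (measure_mono hs).trans_lt
    (lt_top_iff_ne_top.2 hVt) |>.ne
  have f0 := hfin K' (Kt_sub φ K _ _)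
  have f1 := hfin B1 (fun x hx => hx.1)
  have f2 := hfin B2 (fun x hx => hx.1)
  have hm' : volume.real K ≤ volume.real K' + (volume.real B1 + volume.real B2) := by
    have := ENNReal.toReal_mono (ENNReal.add_ne_top.2 ⟨f0, ENNReal.add_ne_top.2 ⟨f1, f2⟩⟩) hm
    rwa [ENNReal.toReal_add f0 (ENNReal.add_ne_top.2 ⟨f1, f2⟩), ENNReal.toReal_add f1 f2] at this
  have g1 : 8 * volume.real B1 ≤ volume.real K := by
    have := ENNReal.toReal_mono hVt hB1
    rwa [ENNReal.toReal_mul] at this
  have g2 : 8 * volume.real B2 ≤ volume.real K := by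
    have := ENNReal.toReal_mono hVt hB2
    rwa [ENNReal.toReal_mul] at this
  linarith

end Pool.Agent.H46.Cj
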